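import Pool.Agent.N650.PB.Main2

/-!
# Bounded clusters of squarefree congruent numbers in the neighbourhoods of a squarefree number
-/

set_option autoImplicit false

namespace Pool.Agent.N650.PB

open Finset Polynomial

/-- the squarefree congruent numbers near `m` -/
def Near {K : Type} (P : K → ℝ[X]) (ε : ℝ) (m M n : ℕ) : Prop :=
  Squarefree n ∧ Congruent n ∧ n ≡ m [MOD 8] ∧ (∃ n' : ℕ, n = m * n' ∧ n' ≡ 1 [MOD M]) ∧
    ∀ k, NearInt ε ((P k).eval (n : ℝ) - (P k).eval (m : ℝ))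

theorem main_C (K : Type) [Finite K] (P : K → ℝ[X]) {ε : ℝ} (hε : 0 < ε) {m : ℕ} (hm : Squarefree m) {M : ℕ}
    (hM : 1 ≤ M) (J : ℕ) (hJ : 1 ≤ J) :
    ∃ c : ℝ, 0 < c ∧ ∃ B Y₀ C₀ : ℕ, 1 ≤ B ∧ ∀ Y : ℕ, Y₀ ≤ Y → ∃ S : Finset ℕ, c * Y ≤ S.card ∧ ∀ n ∈ S,
      n ≤ B * Y ^ 4 ∧ Near P ε m M n ∧ J ≤ {n' : ℕ | n ≤ n' ∧ n' ≤ n + C₀ ∧ Near P ε m M n'}.ncard := by
  classical
  have _ := Fintype.ofFinite K
  have hm0 : 0 < m := Nat.pos_of_ne_zero (by rintro rfl; exact not_squarefree_zero hm)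
  obtain ⟨D, hD⟩ : ∃ D : ℕ, D = univ.sup (fun k => (P k).natDegree) := ⟨_, rfl⟩
  have hdeg : ∀ k, (P k).natDegree ≤ D := fun k => by
    rw [hD]
    exact le_sup (f := fun k => (P k).natDegree) (mem_univ k)
  have hε2 : 0 < ε / 2 := by positivity
  obtain ⟨F, hF⟩ : ∃ F : ℕ, F = J.factorial := ⟨_, rfl⟩
  have hF0 : 0 < F := by rw [hF]; exact J.factorial_pos
  have hkF : ∀ k : ℕ, 1 ≤ k → k ≤ J → k ∣ F := fun k h1 h2 => by
    rw [hF]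
    exact Nat.dvd_factorial h1 h2
  have hkF' : ∀ k : ℕ, 1 ≤ k → k ≤ J → k * (F / k) = F := fun k h1 h2 => Nat.mul_div_cancel' (hkF k h1 h2)
  have hFk0 : ∀ k : ℕ, 1 ≤ k → k ≤ J → 0 < F / k := fun k h1 h2 => Nat.div_pos (Nat.le_of_dvd hF0 (hkF k h1 h2)) h1
  obtain ⟨N₀, hN₀, hrec⟩ := rec_density (K × Fin J) (D * 4) hε2
  obtain ⟨z, hz⟩ : ∃ z : ℕ, z = 32 * J * F ^ 2 * N₀ ^ 2 := ⟨_, rfl⟩
  have hz1 : 1 ≤ z := by
    rw [hz]
    have : 0 < 32 * J * F ^ 2 * N₀ ^ 2 := by positivity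
    omega
  obtain ⟨V, hV⟩ : ∃ V : ℕ, V = 8 * m * M * z.factorial := ⟨_, rfl⟩
  have hV0 : 0 < V := by rw [hV]; have := z.factorial_pos; positivity
  obtain ⟨N₁, hpoly⟩ := rec_poly (K × Fin J) (D * 4) hε2
  obtain ⟨a, ha1, -, ha⟩ := hpoly (fun k => (P k.1).comp (C (m : ℝ) -
    C (((V : ℝ) * ((k.2 : ℕ) + 1 : ℕ)) ^ 4 * (m : ℝ) ^ 3) * X ^ 4)) (fun k => by
    refine natDegree_comp_le.trans (Nat.mul_le_mul (hdeg k.1) ?_)
    compute_degree)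
  obtain ⟨s, hs⟩ : ∃ s : ℕ, s = V * a := ⟨_, rfl⟩
  have hs0 : 0 < s := by rw [hs]; positivity
  have hVs : V ∣ s := by rw [hs]; exact dvd_mul_right _ _
  have h8 : 8 ∣ s := (by rw [hV]; exact ⟨m * M * z.factorial, by ring⟩ : 8 ∣ V).trans hVs
  have h2 : 2 ∣ s := (by norm_num : 2 ∣ 8).trans h8
  have hms : m ∣ s := (by rw [hV]; exact ⟨8 * M * z.factorial, by ring⟩ : m ∣ V).trans hVs
  have hMs : M ∣ s := (by rw [hV]; exact ⟨8 * m * z.factorial, by ring⟩ : M ∣ V).trans hVs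
  have hzs : ∀ p : ℕ, p.Prime → p ≤ z → p ∣ s := by
    intro p hp hpz
    have h1 : p ∣ z.factorial := hp.dvd_factorial.2 hpz
    have h2 : z.factorial ∣ V := by rw [hV]; exact dvd_mul_left _ _
    exact (h1.trans h2).trans hVs
  have hmle : ∀ k : ℕ, 1 ≤ k → m ≤ s * k := fun k hk => Nat.le_of_dvd (by positivity) (hms.mul_right k)
  -- the polynomials in `y`
  obtain ⟨R, hR⟩ : ∃ R : K × Fin J → ℝ[X], R = fun k => (P k.1).comp (C (m : ℝ) * (1 + C (((s : ℝ) * F) ^ 2) * X) ^ 4 -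
    C (((s : ℝ) * ((k.2 : ℕ) + 1 : ℕ)) ^ 4 * (m : ℝ) ^ 3)) := ⟨_, rfl⟩
  have hRdeg : ∀ k, (R k).natDegree ≤ D * 4 := fun k => by
    rw [hR]
    refine natDegree_comp_le.trans (Nat.mul_le_mul (hdeg k.1) ?_)
    compute_degree
  have hval : ∀ k y : ℕ, 1 ≤ k → k ≤ J → 1 ≤ y → ((val m (s * k) ((F / k) ^ 2 * y) : ℕ) : ℤ) =
      m * (1 + ((s : ℤ) * F) ^ 2 * y) ^ 4 - ((s : ℤ) * k) ^ 4 * (m : ℤ) ^ 3 := fun k y h1 h2 h3 => by
    have h4 : 1 ≤ (F / k) ^ 2 * y := Nat.mul_pos (pow_pos (hFk0 k h1 h2) 2) h3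
    rw [val_cast (hmle k h1) h4]
    have h6 := hkF' k h1 h2
    generalize F / k = e at h6
    have h5 : (F : ℤ) = (k : ℤ) * (e : ℤ) := by exact_mod_cast h6.symm
    rw [h5]
    push_cast
    ring
  have hReval : ∀ (l : K) (j : Fin J) (y : ℕ), 1 ≤ y → (R (l, j)).eval (y : ℝ) =
      (P l).eval ((val m (s * ((j : ℕ) + 1)) ((F / ((j : ℕ) + 1)) ^ 2 * y) : ℕ) : ℝ) := fun l j y hy => by
    have h1 : ((val m (s * ((j : ℕ) + 1)) ((F / ((j : ℕ) + 1)) ^ 2 * y) : ℕ) : ℝ) =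
        m * (1 + ((s : ℝ) * F) ^ 2 * y) ^ 4 - ((s : ℝ) * (((j : ℕ) + 1 : ℕ) : ℝ)) ^ 4 * (m : ℝ) ^ 3 := by
      have := hval ((j : ℕ) + 1) y (by omega) (by have := j.2; omega) hy
      exact_mod_cast this
    rw [h1, hR]
    simp only [eval_comp, eval_sub, eval_mul, eval_C, eval_pow, eval_add, eval_one, eval_X]
  have hRzero : ∀ k, NearInt (ε / 2) ((R k).eval 0 - (P k.1).eval (m : ℝ)) := fun k => by
    have h1 := ha k
    simp only [eval_comp, eval_sub, eval_mul, eval_C, eval_pow, eval_X] at h1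
    rw [hR]
    simp only [eval_comp, eval_sub, eval_mul, eval_C, eval_pow, eval_add, eval_one, eval_X]
    have e1 : (m : ℝ) * (1 + ((s : ℝ) * F) ^ 2 * 0) ^ 4 - ((s : ℝ) * (((k.2 : ℕ) + 1 : ℕ) : ℝ)) ^ 4 * (m : ℝ) ^ 3 =
        (m : ℝ) - ((V : ℝ) * (((k.2 : ℕ) + 1 : ℕ) : ℝ)) ^ 4 * (m : ℝ) ^ 3 * (a : ℝ) ^ 4 := by
      rw [hs]
      push_cast
      ring
    have e2 : (m : ℝ) - ((V : ℝ) * (((k.2 : ℕ) + 1 : ℕ) : ℝ)) ^ 4 * (m : ℝ) ^ 3 * (0 : ℝ) ^ 4 = m := by ring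
    rw [e2] at h1
    rw [e1]
    exact h1
  -- constants
  have hN₀' : (1 : ℝ) ≤ N₀ := by exact_mod_cast hN₀
  have hJ' : (1 : ℝ) ≤ J := by exact_mod_cast hJ
  have hF' : (1 : ℝ) ≤ F := by exact_mod_cast hF0
  obtain ⟨δ, hδ⟩ : ∃ δ : ℝ, δ = 1 / (32 * J * (N₀ : ℝ) ^ 2) := ⟨_, rfl⟩
  have hδ0 : 0 < δ := by rw [hδ]; positivity
  obtain ⟨Y₁, hpi⟩ := pi_small (L := 3 * (s * F) ^ 2) (by positivity) hδ0
  refine ⟨1 / (2 * (N₀ : ℝ) ^ 2), by positivity, 16 * (s * J) ^ 8 * m * ((F / J) ^ 2) ^ 4, max Y₁ (4 * N₀ ^ 2),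
    s ^ 4 * J ^ 4 * m ^ 3, ?_, fun Y hY => ?_⟩
  · have h3 := hFk0 J hJ le_rfl
    have : 0 < 16 * (s * J) ^ 8 * m * ((F / J) ^ 2) ^ 4 := by positivity
    omega
  have hY1 : Y₁ ≤ Y := (le_max_left _ _).trans hY
  have hY2 : 4 * N₀ ^ 2 ≤ Y := (le_max_right _ _).trans hY
  obtain ⟨G, hG⟩ : ∃ G : Finset ℕ, G = (Icc 1 Y).filter (fun y : ℕ => ∀ k, NearInt (ε / 2) ((R k).eval (y : ℝ) - (R k).eval 0)) :=
    ⟨_, rfl⟩
  obtain ⟨T, hT⟩ : ∃ T : ℕ → Finset ℕ, T = fun k : ℕ => (Icc 1 Y).filter (fun y : ℕ =>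
    ¬ Squarefree (val m (s * k) ((F / k) ^ 2 * y))) := ⟨_, rfl⟩
  have hGc := hrec R hRdeg G Y (fun y h1 h2 h3 => by
    rw [hG, mem_filter, mem_Icc]
    exact ⟨⟨h1, h2⟩, h3⟩)
  have hpiY := hpi Y hY1
  have hTr : ∀ k ∈ Icc 1 J, ((T k).card : ℝ) ≤ (Y : ℝ) / (4 * J * (N₀ : ℝ) ^ 2) := by
    intro k hk
    rw [mem_Icc] at hk
    have hFk := hFk0 k hk.1 hk.2
    have hTc := sieve (m := m) (s := s * k) (z := z) (Y := (F / k) ^ 2 * Y) hm (Nat.mul_pos hs0 hk.1) (h2.mul_right k)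
      (hms.mul_right k) hz1 (fun p hp hpz => (hzs p hp hpz).mul_right k) ((T k).image (fun y => (F / k) ^ 2 * y)) (fun y' hy' => by
        obtain ⟨y, hy, rfl⟩ := mem_image.1 hy'
        rw [hT, mem_filter, mem_Icc] at hy
        exact ⟨Nat.mul_pos (pow_pos hFk 2) hy.1.1, Nat.mul_le_mul_left _ hy.1.2, hy.2⟩)
    rw [card_image_of_injective _ (fun y y' h => Nat.eq_of_mul_eq_mul_left (pow_pos hFk 2) h)] at hTc
    have e0 : 3 * (s * k) ^ 2 * ((F / k) ^ 2 * Y) = 3 * (s * F) ^ 2 * Y := by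
      calc 3 * (s * k) ^ 2 * ((F / k) ^ 2 * Y) = 3 * (s * (k * (F / k))) ^ 2 * Y := by ring
        _ = _ := by rw [hkF' k hk.1 hk.2]
    rw [e0] at hTc
    have h3 : (((F / k) ^ 2 * Y : ℕ) : ℝ) ≤ (F : ℝ) ^ 2 * Y := by
      have : (F / k) ^ 2 * Y ≤ F ^ 2 * Y := Nat.mul_le_mul_right _ (Nat.pow_le_pow_left (Nat.div_le_self _ _) 2)
      exact_mod_cast this
    have e1 : (4 : ℝ) * ((F : ℝ) ^ 2 * Y) / z = Y / (8 * J * (N₀ : ℝ) ^ 2) := by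
      rw [hz]
      push_cast
      field_simp
      ring
    have h4 : 4 * (((F / k) ^ 2 * Y : ℕ) : ℝ) / z ≤ Y / (8 * J * (N₀ : ℝ) ^ 2) := by
      rw [← e1]
      gcongr
    have e2 : δ * Y = Y / (32 * J * (N₀ : ℝ) ^ 2) := by rw [hδ]; ring
    rw [e2] at hpiY
    calc ((T k).card : ℝ) ≤ 4 * (((F / k) ^ 2 * Y : ℕ) : ℝ) / z + 4 * (Nat.primeCounting (3 * (s * F) ^ 2 * Y) : ℝ) := hTc
      _ ≤ Y / (8 * J * (N₀ : ℝ) ^ 2) + 4 * (Y / (32 * J * (N₀ : ℝ) ^ 2)) := by linarith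
      _ = _ := by field_simp; ring
  have hTu : ((((Icc 1 J).biUnion T).card : ℕ) : ℝ) ≤ (Y : ℝ) / (4 * (N₀ : ℝ) ^ 2) := by
    calc ((((Icc 1 J).biUnion T).card : ℕ) : ℝ) ≤ ((∑ k ∈ Icc 1 J, (T k).card : ℕ) : ℝ) := by
          exact_mod_cast card_biUnion_le
      _ = ∑ k ∈ Icc 1 J, ((T k).card : ℝ) := by push_cast; rfl
      _ ≤ ∑ k ∈ Icc 1 J, (Y : ℝ) / (4 * J * (N₀ : ℝ) ^ 2) := sum_le_sum hTr
      _ = J * ((Y : ℝ) / (4 * J * (N₀ : ℝ) ^ 2)) := by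
          rw [sum_const, nsmul_eq_mul, Nat.card_Icc, Nat.add_sub_cancel]
      _ = _ := by field_simp
  have hGr := real_bound hN₀ hGc
  obtain ⟨f, hf⟩ : ∃ f : ℕ → ℕ, f = fun y => val m (s * J) ((F / J) ^ 2 * y) := ⟨_, rfl⟩
  refine ⟨(G \ (Icc 1 J).biUnion T).image f, ?_, ?_⟩
  · have hinj : Set.InjOn f ((G \ (Icc 1 J).biUnion T : Finset ℕ) : Set ℕ) := by
      intro y hy y' hy' h
      have h1 : y ∈ G := (mem_sdiff.1 hy).1
      have h2 : y' ∈ G := (mem_sdiff.1 hy').1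
      rw [hG, mem_filter, mem_Icc] at h1 h2
      have hFJ := hFk0 J hJ le_rfl
      rw [hf] at h
      have h3 := val_inj hm0 (by positivity) (hmle J hJ) (Nat.mul_pos (pow_pos hFJ 2) h1.1.1)
        (Nat.mul_pos (pow_pos hFJ 2) h2.1.1) h
      exact Nat.eq_of_mul_eq_mul_left (pow_pos hFJ 2) h3
    rw [card_image_of_injOn hinj]
    have h1 : G.card ≤ (G \ (Icc 1 J).biUnion T).card + ((Icc 1 J).biUnion T).card := by
      have := card_le_card_sdiff_add_card (s := G) (t := (Icc 1 J).biUnion T)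
      omega
    have h1' : (G.card : ℝ) ≤ (G \ (Icc 1 J).biUnion T).card + (((Icc 1 J).biUnion T).card : ℕ) := by exact_mod_cast h1
    have h2' : (1 : ℝ) ≤ (Y : ℝ) / (4 * (N₀ : ℝ) ^ 2) := by
      rw [le_div_iff₀ (by positivity), one_mul]
      exact_mod_cast hY2
    have e1 : (1 : ℝ) / (2 * (N₀ : ℝ) ^ 2) * Y = (Y : ℝ) / (N₀ : ℝ) ^ 2 - Y / (4 * (N₀ : ℝ) ^ 2) - Y / (4 * (N₀ : ℝ) ^ 2) := by
      field_simp
      ring
    rw [e1]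
    linarith
  · intro n hn
    obtain ⟨y, hy, rfl⟩ := mem_image.1 hn
    obtain ⟨hyG, hyT⟩ := mem_sdiff.1 hy
    rw [hG, mem_filter, mem_Icc] at hyG
    obtain ⟨⟨hy1, hyY⟩, hgood⟩ := hyG
    have hFJ := hFk0 J hJ le_rfl
    obtain ⟨g, hg⟩ : ∃ g : Fin J → ℕ, g = fun j : Fin J => val m (s * ((j : ℕ) + 1)) ((F / ((j : ℕ) + 1)) ^ 2 * y) := ⟨_, rfl⟩
    have hgc : ∀ j : Fin J, ((g j : ℕ) : ℤ) = m * (1 + ((s : ℤ) * F) ^ 2 * y) ^ 4 - ((s : ℤ) * (((j : ℕ) + 1 : ℕ) : ℤ)) ^ 4 * (m : ℤ) ^ 3 := by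
      intro j
      rw [hg]
      exact hval ((j : ℕ) + 1) y (by omega) (by have := j.2; omega) hy1
    have hnear : ∀ j : Fin J, Near P ε m M (g j) := by
      intro j
      have hj1 : 1 ≤ (j : ℕ) + 1 := by omega
      have hjJ : (j : ℕ) + 1 ≤ J := by have := j.2; omega
      have hFj := hFk0 _ hj1 hjJ
      have hyj : 1 ≤ (F / ((j : ℕ) + 1)) ^ 2 * y := Nat.mul_pos (pow_pos hFj 2) hy1
      refine ⟨?_, ?_, ?_, ?_, ?_⟩
      · rw [hg]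
        by_contra h
        apply hyT
        rw [mem_biUnion]
        refine ⟨(j : ℕ) + 1, by rw [mem_Icc]; exact ⟨hj1, hjJ⟩, ?_⟩
        rw [hT, mem_filter, mem_Icc]
        exact ⟨⟨hy1, hyY⟩, h⟩
      · rw [hg]
        exact val_congruent hm0 (by positivity) (h2.mul_right _) (hmle _ hj1) hyj
      · rw [hg]
        have h1 := (val_mod (m := m) (hmle _ hj1) hyj (h8.mul_right ((j : ℕ) + 1))).mul_left m
        rw [mul_one] at h1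
        exact h1
      · rw [hg]
        exact ⟨_, rfl, val_mod (hmle _ hj1) hyj (hMs.mul_right _)⟩
      · intro l
        have h1 := (hgood (l, j)).add (hRzero (l, j))
        rw [hReval l j y hy1] at h1
        rw [hg]
        have e1 : (P l).eval ((val m (s * ((j : ℕ) + 1)) ((F / ((j : ℕ) + 1)) ^ 2 * y) : ℕ) : ℝ) - (R (l, j)).eval 0 +
            ((R (l, j)).eval 0 - (P (l, j).1).eval (m : ℝ)) =
          (P l).eval ((val m (s * ((j : ℕ) + 1)) ((F / ((j : ℕ) + 1)) ^ 2 * y) : ℕ) : ℝ) - (P l).eval (m : ℝ) := by ring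
        rw [e1, add_halves] at h1
        exact h1
    rw [hf]
    refine ⟨?_, ?_, ?_⟩
    · have h3 := val_le (m := m) (s := s * J) (y := (F / J) ^ 2 * y) (Y := (F / J) ^ 2 * Y) (by positivity)
        (Nat.mul_pos (pow_pos hFJ 2) hy1) (Nat.mul_le_mul_left _ hyY)
      refine h3.trans (le_of_eq ?_)
      ring
    · have h3 := hnear ⟨J - 1, by omega⟩
      have e1 : g ⟨J - 1, by omega⟩ = val m (s * J) ((F / J) ^ 2 * y) := by
        rw [hg]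
        show val m (s * (J - 1 + 1)) ((F / (J - 1 + 1)) ^ 2 * y) = _
        rw [Nat.sub_add_cancel hJ]
      rw [e1] at h3
      exact h3
    · have hJc : ((val m (s * J) ((F / J) ^ 2 * y) : ℕ) : ℤ) = m * (1 + ((s : ℤ) * F) ^ 2 * y) ^ 4 - ((s : ℤ) * J) ^ 4 * (m : ℤ) ^ 3 :=
        hval J y hJ le_rfl hy1
      have hs' : (0 : ℤ) < s := by exact_mod_cast hs0
      have hm' : (0 : ℤ) < m := by exact_mod_cast hm0
      have hginj : Function.Injective g := by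
        intro j j' h
        have h3 := hgc j
        rw [h, hgc j'] at h3
        have h4 : ((s : ℤ) * (((j' : ℕ) + 1 : ℕ) : ℤ)) ^ 4 * (m : ℤ) ^ 3 = ((s : ℤ) * (((j : ℕ) + 1 : ℕ) : ℤ)) ^ 4 * (m : ℤ) ^ 3 := by
          linarith
        have h5 : (s * ((j' : ℕ) + 1)) ^ 4 * m ^ 3 = (s * ((j : ℕ) + 1)) ^ 4 * m ^ 3 := by exact_mod_cast h4
        have h6 := Nat.eq_of_mul_eq_mul_right (by positivity) h5
        have h7 : s * ((j' : ℕ) + 1) = s * ((j : ℕ) + 1) := Nat.pow_left_injective (n := 4) (by norm_num) h6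
        have h8 := Nat.eq_of_mul_eq_mul_left hs0 h7
        apply Fin.ext
        omega
      have hcard : (univ.image g).card = J := by
        rw [card_image_of_injective _ hginj, card_univ, Fintype.card_fin]
      have hfin : {n' : ℕ | val m (s * J) ((F / J) ^ 2 * y) ≤ n' ∧ n' ≤ val m (s * J) ((F / J) ^ 2 * y) + s ^ 4 * J ^ 4 * m ^ 3 ∧
          Near P ε m M n'}.Finite := by
        apply (Set.finite_Iic (val m (s * J) ((F / J) ^ 2 * y) + s ^ 4 * J ^ 4 * m ^ 3)).subset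
        rintro n' ⟨-, h3, -⟩
        exact h3
      have hsub : ((univ.image g : Finset ℕ) : Set ℕ) ⊆ {n' : ℕ | val m (s * J) ((F / J) ^ 2 * y) ≤ n' ∧
          n' ≤ val m (s * J) ((F / J) ^ 2 * y) + s ^ 4 * J ^ 4 * m ^ 3 ∧ Near P ε m M n'} := by
        intro n' hn'
        obtain ⟨j, -, rfl⟩ := mem_image.1 hn'
        have hjJ : (j : ℕ) + 1 ≤ J := by have := j.2; omega
        have hpw : ((s : ℤ) * (((j : ℕ) + 1 : ℕ) : ℤ)) ^ 4 ≤ ((s : ℤ) * J) ^ 4 := by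
          have : (((j : ℕ) + 1 : ℕ) : ℤ) ≤ J := by exact_mod_cast hjJ
          gcongr
        have hpw0 : (0 : ℤ) ≤ ((s : ℤ) * (((j : ℕ) + 1 : ℕ) : ℤ)) ^ 4 * (m : ℤ) ^ 3 := by positivity
        have hpw1 : ((s : ℤ) * (((j : ℕ) + 1 : ℕ) : ℤ)) ^ 4 * (m : ℤ) ^ 3 ≤ ((s : ℤ) * J) ^ 4 * (m : ℤ) ^ 3 :=
          mul_le_mul_of_nonneg_right hpw (by positivity)
        refine ⟨?_, ?_, hnear j⟩
        · have h3 : ((val m (s * J) ((F / J) ^ 2 * y) : ℕ) : ℤ) ≤ ((g j : ℕ) : ℤ) := by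
            rw [hgc, hJc]
            linarith
          exact_mod_cast h3
        · have h3 : ((g j : ℕ) : ℤ) ≤ ((val m (s * J) ((F / J) ^ 2 * y) + s ^ 4 * J ^ 4 * m ^ 3 : ℕ) : ℤ) := by
            rw [hgc]
            push_cast
            rw [hJc]
            have e1 : (s : ℤ) ^ 4 * (J : ℤ) ^ 4 * (m : ℤ) ^ 3 = ((s : ℤ) * J) ^ 4 * (m : ℤ) ^ 3 := by ring
            rw [e1]
            push_cast at hpw0
            linarith
          exact_mod_cast h3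
      have h3 := Set.ncard_le_ncard hsub hfin
      rw [Set.ncard_coe_finset, hcard] at h3
      exact h3

/-- the main theorem, in terms of `X` -/
theorem clusters (K : Type) [Finite K] (P : K → ℝ[X]) {ε : ℝ} (hε : 0 < ε) {m : ℕ} (hm : Squarefree m) {M : ℕ}
    (hM : 1 ≤ M) (J : ℕ) (hJ : 1 ≤ J) :
    ∃ c : ℝ, 0 < c ∧ ∃ (C : ℕ) (X₀ : ℝ), ∀ X : ℝ, X₀ ≤ X →
      c * X ^ (1 / 4 : ℝ) ≤ (({n : ℕ | (n : ℝ) ≤ X ∧ Near P ε m M n ∧
        J ≤ {n' : ℕ | n ≤ n' ∧ n' ≤ n + C ∧ Near P ε m M n'}.ncard}.ncard : ℕ) : ℝ) := by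
  obtain ⟨c, hc, B, Y₀, C₀, hB, h⟩ := main_C K P hε hm hM J hJ
  have hB' : (1 : ℝ) ≤ B := by exact_mod_cast hB
  have hBr : 0 < (B : ℝ) ^ (1 / 4 : ℝ) := by positivity
  refine ⟨c / 2 / (B : ℝ) ^ (1 / 4 : ℝ), by positivity, C₀, B * ((Y₀ : ℝ) + 2) ^ 4, fun X hX => ?_⟩
  have hX0 : 0 < X := lt_of_lt_of_le (by positivity) hX
  obtain ⟨u, hu⟩ : ∃ u : ℝ, u = (X / B) ^ (1 / 4 : ℝ) := ⟨_, rfl⟩
  have hu4 : u ^ 4 = X / B := by
    rw [hu, ← Real.rpow_natCast, ← Real.rpow_mul (by positivity)]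
    norm_num
  have hu0 : 0 ≤ u := by rw [hu]; positivity
  have huY : (Y₀ : ℝ) + 2 ≤ u := by
    have h1 : ((Y₀ : ℝ) + 2) ^ 4 ≤ u ^ 4 := by
      rw [hu4, le_div_iff₀ (by positivity)]
      linarith
    exact le_of_pow_le_pow_left₀ (by norm_num) hu0 h1
  obtain ⟨Y, hY⟩ : ∃ Y : ℕ, Y = ⌊u⌋₊ := ⟨_, rfl⟩
  have hYle : (Y : ℝ) ≤ u := by rw [hY]; exact Nat.floor_le hu0
  have hYge : u - 1 < Y := by rw [hY]; exact Nat.sub_one_lt_floor u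
  have hYY : Y₀ ≤ Y := by
    have h1 : (Y₀ : ℝ) < Y := by linarith
    exact_mod_cast h1.le
  obtain ⟨S, hS, hS2⟩ := h Y hYY
  have hY0' : (0 : ℝ) ≤ Y₀ := by positivity
  have h1 : c / 2 / (B : ℝ) ^ (1 / 4 : ℝ) * X ^ (1 / 4 : ℝ) = c / 2 * u := by
    rw [hu, Real.div_rpow hX0.le (by positivity)]
    ring
  rw [h1]
  have h2 : c / 2 * u ≤ c * Y := by
    have : u / 2 ≤ Y := by linarith
    nlinarith
  refine h2.trans (hS.trans ?_)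
  rw [← Set.ncard_coe_finset S]
  have hfin : {n : ℕ | (n : ℝ) ≤ X ∧ Near P ε m M n ∧
        J ≤ {n' : ℕ | n ≤ n' ∧ n' ≤ n + C₀ ∧ Near P ε m M n'}.ncard}.Finite := by
    apply (Set.finite_Iic ⌊X⌋₊).subset
    rintro n ⟨hn, -⟩
    exact Nat.le_floor hn
  have hsub : (S : Set ℕ) ⊆ {n : ℕ | (n : ℝ) ≤ X ∧ Near P ε m M n ∧
        J ≤ {n' : ℕ | n ≤ n' ∧ n' ≤ n + C₀ ∧ Near P ε m M n'}.ncard} := by
    intro n hn
    obtain ⟨a1, a2, a3⟩ := hS2 n hn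
    refine ⟨?_, a2, a3⟩
    have a1' : (n : ℝ) ≤ B * (Y : ℝ) ^ 4 := by exact_mod_cast a1
    refine a1'.trans ?_
    calc (B : ℝ) * (Y : ℝ) ^ 4 ≤ B * u ^ 4 := by gcongr
      _ = X := by
        rw [hu4]
        field_simp
  exact_mod_cast Set.ncard_le_ncard hsub hfin

end Pool.Agent.N650.PB
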