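import Pool.Agent.N650.PB.Main2
import Pool.Agent.H353R2.Z2

/-!
# Every squarefree number is a limit of squarefree congruent numbers for all real polynomial phases: at least `c X ^ (1/2 - η)`
-/

set_option autoImplicit false

namespace Pool.Agent.N650.PB

open Finset Polynomial

/-- the main theorem -/
theorem main_X (K : Type) [Finite K] (P : K → ℝ[X]) {ε : ℝ} (hε : 0 < ε) {m : ℕ} (hm : Squarefree m) {M : ℕ}
    (hM : 1 ≤ M) {η : ℝ} (hη : 0 < η) :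
    ∃ c : ℝ, 0 < c ∧ ∃ X₀ : ℝ, ∀ X : ℝ, X₀ ≤ X →
      c * X ^ (1 / 2 - η : ℝ) ≤ (({n : ℕ | (n : ℝ) ≤ X ∧ Squarefree n ∧ Congruent n ∧ n ≡ m [MOD 8] ∧
        (∃ n' : ℕ, n = m * n' ∧ n' ≡ 1 [MOD M]) ∧
        ∀ k, NearInt ε ((P k).eval (n : ℝ) - (P k).eval (m : ℝ))}.ncard : ℕ) : ℝ) := by
  obtain ⟨c, hc, B, W₀, hB, h⟩ := main_W K P hε hm hM
  obtain ⟨C, hC, hdiv⟩ := H353.divisor_bound_real η hη
  have hB' : (1 : ℝ) ≤ B := by exact_mod_cast hB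
  have hBr : 0 < (B : ℝ) ^ (1 / 2 : ℝ) := by positivity
  refine ⟨c / (8 * C * (B : ℝ) ^ (1 / 2 : ℝ)), by positivity, B * ((W₀ : ℝ) + 2) ^ 6, fun X hX => ?_⟩
  have hX0 : 0 < X := lt_of_lt_of_le (by positivity) hX
  obtain ⟨u, hu⟩ : ∃ u : ℝ, u = (X / B) ^ (1 / 6 : ℝ) := ⟨_, rfl⟩
  have hu6 : u ^ 6 = X / B := by
    rw [hu, ← Real.rpow_natCast, ← Real.rpow_mul (by positivity)]
    norm_num
  have hu3 : u ^ 3 = (X / B) ^ (1 / 2 : ℝ) := by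
    rw [hu, ← Real.rpow_natCast, ← Real.rpow_mul (by positivity)]
    norm_num
  have hu0 : 0 ≤ u := by rw [hu]; positivity
  have huW : (W₀ : ℝ) + 2 ≤ u := by
    have h1 : ((W₀ : ℝ) + 2) ^ 6 ≤ u ^ 6 := by
      rw [hu6, le_div_iff₀ (by positivity)]
      linarith
    exact le_of_pow_le_pow_left₀ (by norm_num) hu0 h1
  obtain ⟨W, hW⟩ : ∃ W : ℕ, W = ⌊u⌋₊ := ⟨_, rfl⟩
  have hWle : (W : ℝ) ≤ u := by rw [hW]; exact Nat.floor_le hu0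
  have hWge : u - 1 < W := by rw [hW]; exact Nat.sub_one_lt_floor u
  have hWW : W₀ ≤ W := by
    have h1 : (W₀ : ℝ) < W := by linarith
    exact_mod_cast h1.le
  obtain ⟨S, hS, hS2⟩ := h W hWW
  have hW0' : (0 : ℝ) ≤ W₀ := by positivity
  have hSX : ∀ n ∈ S, (n : ℝ) ≤ X := by
    intro n hn
    have a1 : (n : ℝ) ≤ B * (W : ℝ) ^ 6 := by exact_mod_cast (hS2 n hn).1
    refine a1.trans ?_
    calc (B : ℝ) * (W : ℝ) ^ 6 ≤ B * u ^ 6 := by gcongr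
      _ = X := by
        rw [hu6]
        field_simp
  have hXη : 0 < X ^ η := by positivity
  have hS3 := hS ⌊C * X ^ η⌋₊ (fun n hn => by
    apply Nat.le_floor
    have hn0 : n ≠ 0 := (hS2 n hn).2.1.ne_zero
    refine (hdiv n hn0).trans ?_
    have := hSX n hn
    gcongr)
  have hS4 : c * (W : ℝ) ^ 3 ≤ C * X ^ η * S.card := by
    refine hS3.trans ?_
    have : ((⌊C * X ^ η⌋₊ : ℕ) : ℝ) ≤ C * X ^ η := Nat.floor_le (by positivity)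
    gcongr
  have hS5 : c / (8 * C * (B : ℝ) ^ (1 / 2 : ℝ)) * X ^ (1 / 2 - η : ℝ) ≤ S.card := by
    have e1 : X ^ (1 / 2 - η : ℝ) = X ^ (1 / 2 : ℝ) / X ^ η := Real.rpow_sub hX0 _ _
    have e2 : (X / B) ^ (1 / 2 : ℝ) = X ^ (1 / 2 : ℝ) / (B : ℝ) ^ (1 / 2 : ℝ) := Real.div_rpow hX0.le (by positivity) _
    have h1 : u / 2 ≤ W := by linarith
    have h2 : (u / 2) ^ 3 ≤ (W : ℝ) ^ 3 := pow_le_pow_left₀ (by positivity) h1 3
    have h3 : c * (u / 2) ^ 3 ≤ C * X ^ η * S.card := (mul_le_mul_of_nonneg_left h2 hc.le).trans hS4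
    have e3 : c / (8 * C * (B : ℝ) ^ (1 / 2 : ℝ)) * X ^ (1 / 2 - η : ℝ) = c * (u / 2) ^ 3 / (C * X ^ η) := by
      have e4 : (u / 2) ^ 3 = X ^ (1 / 2 : ℝ) / (B : ℝ) ^ (1 / 2 : ℝ) / 8 := by
        rw [← e2, ← hu3]
        ring
      rw [e4, e1]
      field_simp
    rw [e3, div_le_iff₀ (by positivity)]
    linarith
  refine hS5.trans ?_
  rw [← Set.ncard_coe_finset S]
  have hfin : {n : ℕ | (n : ℝ) ≤ X ∧ Squarefree n ∧ Congruent n ∧ n ≡ m [MOD 8] ∧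
        (∃ n' : ℕ, n = m * n' ∧ n' ≡ 1 [MOD M]) ∧
        ∀ k, NearInt ε ((P k).eval (n : ℝ) - (P k).eval (m : ℝ))}.Finite := by
    apply (Set.finite_Iic ⌊X⌋₊).subset
    rintro n ⟨hn, -⟩
    exact Nat.le_floor hn
  have hsub : (S : Set ℕ) ⊆ {n : ℕ | (n : ℝ) ≤ X ∧ Squarefree n ∧ Congruent n ∧ n ≡ m [MOD 8] ∧
        (∃ n' : ℕ, n = m * n' ∧ n' ≡ 1 [MOD M]) ∧
        ∀ k, NearInt ε ((P k).eval (n : ℝ) - (P k).eval (m : ℝ))} := by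
    intro n hn
    obtain ⟨a1, a2, a3, a4, a5, a6⟩ := hS2 n hn
    exact ⟨hSX n hn, a2, a3, a5, a4, a6⟩
  exact_mod_cast Set.ncard_le_ncard hsub hfin

end Pool.Agent.N650.PB
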