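import Pool.Agent.N650.PB.Sv

/-!
# Every squarefree number is a limit of squarefree congruent numbers for all real polynomial phases
-/

set_option autoImplicit false

namespace Pool.Agent.N650.PB

open Finset Polynomial

/-- congruent numbers, as in the problem: `x ^ 2 + n y ^ 2` and `x ^ 2 - n y ^ 2` are squares of positive integers -/
def Congruent (n : ℕ) : Prop :=
  ∃ x y z t : ℕ, 0 < x ∧ 0 < y ∧ 0 < z ∧ 0 < t ∧ x ^ 2 + n * y ^ 2 = z ^ 2 ∧ x ^ 2 = n * y ^ 2 + t ^ 2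

lemma val_congruent {m s y : ℕ} (hm : 0 < m) (hs : 0 < s) (h2s : 2 ∣ s) (hms : m ≤ s) (hy : 1 ≤ y) :
    Congruent (val m s y) := by
  obtain ⟨x, hx⟩ : ∃ x : ℕ, x = 1 + s ^ 2 * y := ⟨_, rfl⟩
  have hbnd := val_bound hms hy
  have hval := val_cast hms hy
  have hxz : (1 + (s : ℤ) ^ 2 * y) = (x : ℤ) := by rw [hx]; push_cast; ring
  rw [← hx] at hbnd
  rw [hxz] at hval
  have hx1 : 0 < x := by omega
  have hxodd : Odd (x : ℤ) := by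
    rw [← hxz]
    have h1 : Even ((s : ℤ) ^ 2 * y) := by
      have h2 : Even (s : ℤ) := by
        rw [Int.even_coe_nat]
        exact even_iff_two_dvd.2 h2s
      exact (h2.pow_of_ne_zero two_ne_zero).mul_right _
    exact Odd.add_even odd_one h1
  have hse : Even ((s : ℤ) ^ 2 * m) := by
    have h2 : Even (s : ℤ) := by
      rw [Int.even_coe_nat]
      exact even_iff_two_dvd.2 h2s
    exact (h2.pow_of_ne_zero two_ne_zero).mul_right _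
  obtain ⟨a, ha⟩ : ∃ a : ℤ, a = (x : ℤ) ^ 2 := ⟨_, rfl⟩
  obtain ⟨b, hb⟩ : ∃ b : ℤ, b = (s : ℤ) ^ 2 * m := ⟨_, rfl⟩
  have hab : b < a := by
    rw [ha, hb]
    exact_mod_cast hbnd
  have hb0 : 0 < b := by rw [hb]; positivity
  have haodd : Odd a := by rw [ha]; exact hxodd.pow
  have hbe : Even b := by rw [hb]; exact hse
  have hT : a ^ 2 - b ^ 2 - 2 * a * b ≠ 0 := by
    intro h0
    have h1 : Odd (a ^ 2 - b ^ 2 - 2 * a * b) := by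
      have e1 : Even (b ^ 2) := hbe.pow_of_ne_zero two_ne_zero
      have e2 : Even (2 * a * b) := hbe.mul_left _
      exact (haodd.pow.sub_even e1).sub_even e2
    rw [h0] at h1
    exact (by decide : ¬ Odd (0 : ℤ)) h1
  have hZ : a ^ 2 - b ^ 2 + 2 * a * b ≠ 0 := by
    have : 0 < a ^ 2 - b ^ 2 + 2 * a * b := by nlinarith
    exact this.ne'
  refine ⟨(x ^ 2) ^ 2 + (s ^ 2 * m) ^ 2, 2 * x * s, (a ^ 2 - b ^ 2 + 2 * a * b).natAbs,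
    (a ^ 2 - b ^ 2 - 2 * a * b).natAbs, by positivity, by positivity, Int.natAbs_pos.2 hZ, Int.natAbs_pos.2 hT, ?_, ?_⟩
  · zify
    rw [sq_abs, hval, ha, hb]
    ring
  · zify
    rw [sq_abs, hval, ha, hb]
    ring

lemma val_mod {m s y q : ℕ} (hms : m ≤ s) (hy : 1 ≤ y) (hq : q ∣ s) :
    (1 + s ^ 2 * y) ^ 4 - s ^ 4 * m ^ 2 ≡ 1 [MOD q] := by
  have h1 := val_bound hms hy
  have h2 : s ^ 4 * m ^ 2 ≤ (1 + s ^ 2 * y) ^ 4 := by
    calc s ^ 4 * m ^ 2 = (s ^ 2 * m) ^ 2 := by ring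
      _ ≤ ((1 + s ^ 2 * y) ^ 2) ^ 2 := Nat.pow_le_pow_left h1.le 2
      _ = _ := by ring
  apply Nat.ModEq.symm
  rw [Nat.modEq_iff_dvd]
  have h3 : (q : ℤ) ∣ (s : ℤ) := by exact_mod_cast hq
  refine h3.trans ?_
  push_cast [Nat.cast_sub h2]
  refine ⟨(s : ℤ) * (4 * y + 6 * (s : ℤ) ^ 2 * y ^ 2 + 4 * (s : ℤ) ^ 4 * y ^ 3 + (s : ℤ) ^ 6 * y ^ 4) - (s : ℤ) ^ 3 * (m : ℤ) ^ 2, ?_⟩
  ring

lemma val_inj {m s y y' : ℕ} (hm : 0 < m) (hs : 0 < s) (hms : m ≤ s) (hy : 1 ≤ y) (hy' : 1 ≤ y')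
    (h : val m s y = val m s y') : y = y' := by
  have h1 := val_cast hms hy
  rw [h, val_cast hms hy'] at h1
  have h2 : (m : ℤ) * (1 + (s : ℤ) ^ 2 * y') ^ 4 = m * (1 + (s : ℤ) ^ 2 * y) ^ 4 := by linarith
  have h3 : m * (1 + s ^ 2 * y') ^ 4 = m * (1 + s ^ 2 * y) ^ 4 := by exact_mod_cast h2
  have h4 := Nat.eq_of_mul_eq_mul_left hm h3
  have h5 : 1 + s ^ 2 * y' = 1 + s ^ 2 * y := Nat.pow_left_injective (n := 4) (by norm_num) h4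
  have h6 : s ^ 2 * y' = s ^ 2 * y := by omega
  exact (Nat.eq_of_mul_eq_mul_left (by positivity) h6).symm

lemma val_le {m s y Y : ℕ} (hs : 0 < s) (hy : 1 ≤ y) (hyY : y ≤ Y) : val m s y ≤ 16 * s ^ 8 * m * Y ^ 4 := by
  have h1 : val m s y ≤ m * (1 + s ^ 2 * y) ^ 4 := Nat.mul_le_mul_left _ (Nat.sub_le _ _)
  have h2 : 1 + s ^ 2 * y ≤ 2 * s ^ 2 * Y := by
    have h3 : s ^ 2 * y ≤ s ^ 2 * Y := Nat.mul_le_mul_left _ hyY
    have h4 : 1 ≤ s ^ 2 * Y := Nat.mul_pos (by positivity) (by omega)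
    calc 1 + s ^ 2 * y ≤ s ^ 2 * Y + s ^ 2 * Y := by omega
      _ = _ := by ring
  calc val m s y ≤ m * (1 + s ^ 2 * y) ^ 4 := h1
    _ ≤ m * (2 * s ^ 2 * Y) ^ 4 := Nat.mul_le_mul_left _ (Nat.pow_le_pow_left h2 4)
    _ = _ := by ring

/-- `π(L Y) ≤ δ Y` for large `Y` -/
lemma pi_small {L : ℕ} (hL : 0 < L) {δ : ℝ} (hδ : 0 < δ) :
    ∃ Y₁ : ℕ, ∀ Y : ℕ, Y₁ ≤ Y → (Nat.primeCounting (L * Y) : ℝ) ≤ δ * Y := by
  have h1 := Chebyshev.eventually_primeCounting_le (ε := 1) one_pos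
  have hT : Filter.Tendsto (fun Y : ℕ => ((L * Y : ℕ) : ℝ)) Filter.atTop Filter.atTop := by
    apply tendsto_natCast_atTop_atTop.comp
    exact Filter.tendsto_id.const_mul_atTop' hL
  have h2 := hT.eventually h1
  have h3 : Filter.Tendsto (fun Y : ℕ => Real.log ((L * Y : ℕ) : ℝ)) Filter.atTop Filter.atTop :=
    Real.tendsto_log_atTop.comp hT
  have h4 := h3.eventually_ge_atTop ((Real.log 4 + 1) * L / δ)
  have h5 := h3.eventually_gt_atTop 0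
  obtain ⟨Y₁, h⟩ := Filter.eventually_atTop.1 (h2.and (h4.and h5))
  refine ⟨Y₁, fun Y hY => ?_⟩
  obtain ⟨a1, a2, a3⟩ := h Y hY
  rw [Nat.floor_natCast] at a1
  refine a1.trans ?_
  rw [div_le_iff₀ a3]
  rw [div_le_iff₀ hδ] at a2
  have hY0 : (0 : ℝ) ≤ Y := by positivity
  have e1 : (Real.log 4 + 1) * ((L * Y : ℕ) : ℝ) = ((Real.log 4 + 1) * L) * Y := by push_cast; ring
  rw [e1]
  calc ((Real.log 4 + 1) * L) * Y ≤ (Real.log ((L * Y : ℕ) : ℝ) * δ) * Y := mul_le_mul_of_nonneg_right a2 hY0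
    _ = _ := by ring

/-- the main theorem, in terms of `Y` -/
theorem main_Y (K : Type) [Finite K] (P : K → ℝ[X]) {ε : ℝ} (hε : 0 < ε) {m : ℕ} (hm : Squarefree m) {M : ℕ}
    (hM : 1 ≤ M) :
    ∃ c : ℝ, 0 < c ∧ ∃ B Y₀ : ℕ, 1 ≤ B ∧ ∀ Y : ℕ, Y₀ ≤ Y → ∃ S : Finset ℕ, c * Y ≤ S.card ∧ ∀ n ∈ S, n ≤ B * Y ^ 4 ∧
      Squarefree n ∧ Congruent n ∧ (∃ n' : ℕ, n = m * n' ∧ n' ≡ 1 [MOD M]) ∧ n ≡ m [MOD 8] ∧
      ∀ k, NearInt ε ((P k).eval (n : ℝ) - (P k).eval (m : ℝ)) := by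
  classical
  have _ := Fintype.ofFinite K
  have hm0 : 0 < m := Nat.pos_of_ne_zero (by rintro rfl; exact not_squarefree_zero hm)
  obtain ⟨D, hD⟩ : ∃ D : ℕ, D = univ.sup (fun k => (P k).natDegree) := ⟨_, rfl⟩
  have hdeg : ∀ k, (P k).natDegree ≤ D := fun k => by
    rw [hD]
    exact le_sup (f := fun k => (P k).natDegree) (mem_univ k)
  have hε2 : 0 < ε / 2 := by positivity
  obtain ⟨N₀, hN₀, hrec⟩ := rec_density K (D * 4) hε2
  obtain ⟨z, hz⟩ : ∃ z : ℕ, z = 32 * N₀ ^ 2 := ⟨_, rfl⟩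
  have hz1 : 1 ≤ z := by rw [hz]; nlinarith
  obtain ⟨W, hW⟩ : ∃ W : ℕ, W = 8 * m * M * z.factorial := ⟨_, rfl⟩
  have hW0 : 0 < W := by rw [hW]; have := z.factorial_pos; positivity
  obtain ⟨N₁, hpoly⟩ := rec_poly K (D * 4) hε2
  obtain ⟨a, ha1, -, ha⟩ := hpoly (fun k => (P k).comp (C (m : ℝ) - C ((W : ℝ) ^ 4 * (m : ℝ) ^ 3) * X ^ 4)) (fun k => by
    refine natDegree_comp_le.trans (Nat.mul_le_mul (hdeg k) ?_)
    compute_degree)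
  obtain ⟨s, hs⟩ : ∃ s : ℕ, s = W * a := ⟨_, rfl⟩
  have hs0 : 0 < s := by rw [hs]; positivity
  have hWs : W ∣ s := by rw [hs]; exact dvd_mul_right _ _
  have h8 : 8 ∣ s := (by rw [hW]; exact ⟨m * M * z.factorial, by ring⟩ : 8 ∣ W).trans hWs
  have h2 : 2 ∣ s := (by norm_num : 2 ∣ 8).trans h8
  have hms : m ∣ s := (by rw [hW]; exact ⟨8 * M * z.factorial, by ring⟩ : m ∣ W).trans hWs
  have hMs : M ∣ s := (by rw [hW]; exact ⟨8 * m * z.factorial, by ring⟩ : M ∣ W).trans hWs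
  have hzs : ∀ p : ℕ, p.Prime → p ≤ z → p ∣ s := by
    intro p hp hpz
    have h1 : p ∣ z.factorial := hp.dvd_factorial.2 hpz
    have h2 : z.factorial ∣ W := by rw [hW]; exact dvd_mul_left _ _
    exact (h1.trans h2).trans hWs
  have hmle : m ≤ s := Nat.le_of_dvd hs0 hms
  -- the polynomials in `y`
  obtain ⟨R, hR⟩ : ∃ R : K → ℝ[X], R = fun k => (P k).comp (C (m : ℝ) * (1 + C ((s : ℝ) ^ 2) * X) ^ 4 -
    C ((s : ℝ) ^ 4 * (m : ℝ) ^ 3)) := ⟨_, rfl⟩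
  have hRdeg : ∀ k, (R k).natDegree ≤ D * 4 := fun k => by
    rw [hR]
    refine natDegree_comp_le.trans (Nat.mul_le_mul (hdeg k) ?_)
    compute_degree
  have hReval : ∀ k, ∀ y : ℕ, 1 ≤ y → (R k).eval (y : ℝ) = (P k).eval ((val m s y : ℕ) : ℝ) := fun k y hy => by
    have h1 : ((val m s y : ℕ) : ℝ) = m * (1 + (s : ℝ) ^ 2 * y) ^ 4 - (s : ℝ) ^ 4 * (m : ℝ) ^ 3 := by
      have := val_cast hmle hy
      exact_mod_cast this
    rw [h1, hR]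
    simp only [eval_comp, eval_sub, eval_mul, eval_C, eval_pow, eval_add, eval_one, eval_X]
  have hRzero : ∀ k, NearInt (ε / 2) ((R k).eval 0 - (P k).eval (m : ℝ)) := fun k => by
    have h1 := ha k
    simp only [eval_comp, eval_sub, eval_mul, eval_C, eval_pow, eval_X] at h1
    rw [hR]
    simp only [eval_comp, eval_sub, eval_mul, eval_C, eval_pow, eval_add, eval_one, eval_X]
    have e1 : (m : ℝ) * (1 + (s : ℝ) ^ 2 * 0) ^ 4 - (s : ℝ) ^ 4 * (m : ℝ) ^ 3 =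
        (m : ℝ) - (W : ℝ) ^ 4 * (m : ℝ) ^ 3 * (a : ℝ) ^ 4 := by
      rw [hs]
      push_cast
      ring
    have e2 : (m : ℝ) - (W : ℝ) ^ 4 * (m : ℝ) ^ 3 * (0 : ℝ) ^ 4 = m := by ring
    rw [e2] at h1
    rw [e1]
    exact h1
  -- constants
  obtain ⟨δ, hδ⟩ : ∃ δ : ℝ, δ = 1 / (32 * (N₀ : ℝ) ^ 2) := ⟨_, rfl⟩
  have hN₀' : (1 : ℝ) ≤ N₀ := by exact_mod_cast hN₀
  have hδ0 : 0 < δ := by rw [hδ]; positivity
  obtain ⟨Y₁, hpi⟩ := pi_small (L := 3 * s ^ 2) (by positivity) hδ0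
  refine ⟨1 / (2 * (N₀ : ℝ) ^ 2), by positivity, 16 * s ^ 8 * m, max Y₁ (4 * N₀ ^ 2), ?_, fun Y hY => ?_⟩
  · have : 0 < 16 * s ^ 8 * m := by positivity
    omega
  have hY1 : Y₁ ≤ Y := (le_max_left _ _).trans hY
  have hY2 : 4 * N₀ ^ 2 ≤ Y := (le_max_right _ _).trans hY
  obtain ⟨G, hG⟩ : ∃ G : Finset ℕ, G = (Icc 1 Y).filter (fun y : ℕ => ∀ k, NearInt (ε / 2) ((R k).eval (y : ℝ) - (R k).eval 0)) :=
    ⟨_, rfl⟩
  obtain ⟨T, hT⟩ : ∃ T : Finset ℕ, T = (Icc 1 Y).filter (fun y : ℕ => ¬ Squarefree (val m s y)) := ⟨_, rfl⟩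
  have hGc := hrec R hRdeg G Y (fun y h1 h2 h3 => by
    rw [hG, mem_filter, mem_Icc]
    exact ⟨⟨h1, h2⟩, h3⟩)
  have hTc := sieve hm hs0 h2 hms hz1 hzs T (Y := Y) (fun y hy => by
    rw [hT, mem_filter, mem_Icc] at hy
    exact ⟨hy.1.1, hy.1.2, hy.2⟩)
  have hpiY := hpi Y hY1
  have hGr : (Y : ℝ) / (N₀ : ℝ) ^ 2 - 1 ≤ G.card := by
    have h1 : ((Y / N₀ : ℕ) : ℝ) ≤ (G.card : ℝ) * N₀ := by exact_mod_cast hGc
    have h2 : (Y : ℝ) / N₀ - 1 ≤ ((Y / N₀ : ℕ) : ℝ) := by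
      have h3 := Nat.lt_div_mul_add (a := Y) (show 0 < N₀ by omega)
      have h4 : (Y : ℝ) < ((Y / N₀ : ℕ) : ℝ) * N₀ + N₀ := by exact_mod_cast h3
      rw [sub_le_iff_le_add, div_le_iff₀ (by linarith)]
      nlinarith
    have h3 : (Y : ℝ) / (N₀ : ℝ) ^ 2 - 1 ≤ ((Y : ℝ) / N₀ - 1) / N₀ := by
      have e1 : ((Y : ℝ) / N₀ - 1) / N₀ = (Y : ℝ) / (N₀ : ℝ) ^ 2 - 1 / N₀ := by field_simp
      rw [e1]
      have : 1 / (N₀ : ℝ) ≤ 1 := by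
        rw [div_le_one (by linarith)]
        exact hN₀'
      linarith
    refine h3.trans ?_
    rw [div_le_iff₀ (by linarith)]
    linarith
  have hTr : (T.card : ℝ) ≤ (Y : ℝ) / (4 * (N₀ : ℝ) ^ 2) := by
    have e1 : (4 : ℝ) * Y / z = Y / (8 * (N₀ : ℝ) ^ 2) := by
      rw [hz]
      push_cast
      field_simp
      ring
    have e2 : δ * Y = Y / (32 * (N₀ : ℝ) ^ 2) := by rw [hδ]; ring
    rw [e1] at hTc
    rw [e2] at hpiY
    calc (T.card : ℝ) ≤ Y / (8 * (N₀ : ℝ) ^ 2) + 4 * (Nat.primeCounting (3 * s ^ 2 * Y) : ℝ) := hTc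
      _ ≤ Y / (8 * (N₀ : ℝ) ^ 2) + 4 * (Y / (32 * (N₀ : ℝ) ^ 2)) := by linarith
      _ = _ := by field_simp; ring
  refine ⟨(G \ T).image (val m s), ?_, ?_⟩
  · have hinj : Set.InjOn (val m s) ((G \ T : Finset ℕ) : Set ℕ) := by
      intro y hy y' hy' h
      have h1 : y ∈ G := (mem_sdiff.1 hy).1
      have h2 : y' ∈ G := (mem_sdiff.1 hy').1
      rw [hG, mem_filter, mem_Icc] at h1 h2
      exact val_inj hm0 hs0 hmle h1.1.1 h2.1.1 h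
    rw [card_image_of_injOn hinj]
    have h1 : G.card ≤ (G \ T).card + T.card := by
      have := card_le_card_sdiff_add_card (s := G) (t := T)
      omega
    have h1' : (G.card : ℝ) ≤ (G \ T).card + T.card := by exact_mod_cast h1
    have h2' : (1 : ℝ) ≤ (Y : ℝ) / (4 * (N₀ : ℝ) ^ 2) := by
      rw [le_div_iff₀ (by positivity), one_mul]
      exact_mod_cast hY2
    have e1 : (1 : ℝ) / (2 * (N₀ : ℝ) ^ 2) * Y = (Y : ℝ) / (N₀ : ℝ) ^ 2 - Y / (4 * (N₀ : ℝ) ^ 2) - Y / (4 * (N₀ : ℝ) ^ 2) := by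
      field_simp
      ring
    rw [e1]
    linarith
  · intro n hn
    obtain ⟨y, hy, rfl⟩ := mem_image.1 hn
    obtain ⟨hyG, hyT⟩ := mem_sdiff.1 hy
    rw [hG, mem_filter, mem_Icc] at hyG
    obtain ⟨⟨hy1, hyY⟩, hgood⟩ := hyG
    have hsq : Squarefree (val m s y) := by
      by_contra h
      exact hyT (by rw [hT, mem_filter, mem_Icc]; exact ⟨⟨hy1, hyY⟩, h⟩)
    refine ⟨val_le hs0 hy1 hyY, hsq, val_congruent hm0 hs0 h2 hmle hy1, ⟨_, rfl, val_mod hmle hy1 hMs⟩, ?_, fun k => ?_⟩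
    · have h1 := (val_mod hmle hy1 h8).mul_left m
      rw [mul_one] at h1
      exact h1
    · have h1 := (hgood k).add (hRzero k)
      rw [hReval k y hy1] at h1
      have e1 : (P k).eval ((val m s y : ℕ) : ℝ) - (R k).eval 0 + ((R k).eval 0 - (P k).eval (m : ℝ)) =
        (P k).eval ((val m s y : ℕ) : ℝ) - (P k).eval (m : ℝ) := by ring
      rw [e1, add_halves] at h1
      exact h1

end Pool.Agent.N650.PB
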