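import Pool.Agent.N650.PB.Sv

/-!
# Squarefree values of `m q (x ^ 4 - s ^ 4 m ^ 2 q ^ 2)`, `q = 1 + s y`, `x = 1 + s w`
-/

set_option autoImplicit false

namespace Pool.Agent.N650.PB

open Finset

/-- the values of the polynomial in two variables -/
def val2 (m s y w : ℕ) : ℕ := m * ((1 + s * y) * ((1 + s * w) ^ 4 - s ^ 4 * m ^ 2 * (1 + s * y) ^ 2))

lemma sub_ok {m s y w : ℕ} (h : s ^ 2 * m * (1 + s * y) < (1 + s * w) ^ 2) :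
    s ^ 4 * m ^ 2 * (1 + s * y) ^ 2 ≤ (1 + s * w) ^ 4 := by
  calc s ^ 4 * m ^ 2 * (1 + s * y) ^ 2 = (s ^ 2 * m * (1 + s * y)) ^ 2 := by ring
    _ ≤ ((1 + s * w) ^ 2) ^ 2 := Nat.pow_le_pow_left h.le 2
    _ = _ := by ring

lemma val2_cast {m s y w : ℕ} (h : s ^ 2 * m * (1 + s * y) < (1 + s * w) ^ 2) :
    ((val2 m s y w : ℕ) : ℤ) = m * ((1 + (s : ℤ) * y) * ((1 + (s : ℤ) * w) ^ 4 - (s : ℤ) ^ 4 * (m : ℤ) ^ 2 * (1 + (s : ℤ) * y) ^ 2)) := by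
  have h2 := sub_ok h
  unfold val2
  push_cast [Nat.cast_sub h2]
  ring

/-- a square dividing a value: the four cases -/
lemma bad_pair {m s z W y w : ℕ} (hm : Squarefree m) (hs : 0 < s) (h2s : 2 ∣ s) (hms : m ∣ s)
    (hz : ∀ p : ℕ, p.Prime → p ≤ z → p ∣ s) (hpos : s ^ 2 * m * (1 + s * y) < (1 + s * w) ^ 2)
    (hyW : 1 + s * y ≤ W ^ 2) (hwW : w ≤ W) (hW : 1 ≤ W) (h : ¬ Squarefree (val2 m s y w)) :
    ∃ p : ℕ, p.Prime ∧ z < p ∧ p ≤ 4 * s * W ∧ ¬ p ∣ s ∧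
      ((((p ^ 2 : ℕ) : ℤ) ∣ 1 + (s : ℤ) * y ∨
        ((p ^ 2 : ℕ) : ℤ) ∣ (1 + (s : ℤ) * w) ^ 2 - (s : ℤ) ^ 2 * m * (1 + (s : ℤ) * y) ∨
        ((p ^ 2 : ℕ) : ℤ) ∣ (1 + (s : ℤ) * w) ^ 2 + (s : ℤ) ^ 2 * m * (1 + (s : ℤ) * y)) ∨
        ((p : ℤ) ∣ 1 + (s : ℤ) * y ∧ (p : ℤ) ∣ 1 + (s : ℤ) * w)) := by
  rw [Nat.squarefree_iff_prime_squarefree] at h
  push Not at h
  obtain ⟨p, hp, hpv⟩ := h
  have P : Prime (p : ℤ) := Nat.prime_iff_prime_int.1 hp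
  have hpv' : ((p ^ 2 : ℕ) : ℤ) ∣ ((val2 m s y w : ℕ) : ℤ) := by
    rw [sq]
    exact_mod_cast hpv
  rw [val2_cast hpos] at hpv'
  have hpp : (p : ℤ) ∣ ((p ^ 2 : ℕ) : ℤ) := by
    push_cast
    exact dvd_pow_self _ two_ne_zero
  have hcop : ∀ u : ℤ, ¬ (p : ℤ) ∣ u → IsCoprime (((p ^ 2 : ℕ) : ℤ)) u := fun u hu => by
    push_cast
    exact ((Prime.coprime_iff_not_dvd P).2 hu).pow_left
  have hp1 : ¬ (p : ℤ) ∣ 1 := P.not_dvd_one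
  have hps : ¬ p ∣ s := by
    intro hps
    have h1 : (p : ℤ) ∣ (s : ℤ) := by exact_mod_cast hps
    have h2 : ¬ (p : ℤ) ∣ 1 + (s : ℤ) * y := by
      intro h3
      exact hp1 ((dvd_add_left (h1.mul_right _)).1 h3)
    have h3 : ¬ (p : ℤ) ∣ (1 + (s : ℤ) * w) ^ 4 - (s : ℤ) ^ 4 * (m : ℤ) ^ 2 * (1 + (s : ℤ) * y) ^ 2 := by
      intro h4
      have h5 : (p : ℤ) ∣ (s : ℤ) ^ 4 * (m : ℤ) ^ 2 * (1 + (s : ℤ) * y) ^ 2 :=
        ((h1.trans (dvd_pow_self _ (by norm_num))).mul_right _).mul_right _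
      have h6 : (p : ℤ) ∣ (1 + (s : ℤ) * w) ^ 4 := by
        have := dvd_add h4 h5
        rwa [sub_add_cancel] at this
      exact hp1 ((dvd_add_left (h1.mul_right _)).1 (P.dvd_of_dvd_pow h6))
    have h4 : ((p ^ 2 : ℕ) : ℤ) ∣ (m : ℤ) := by
      have h5 := (hcop _ h2)
      have h6 := (hcop _ h3)
      exact (h5.mul_right h6).dvd_of_dvd_mul_right hpv'
    have h5 : p ^ 2 ∣ m := by exact_mod_cast h4
    rw [sq] at h5
    exact hp.one_lt.ne' (Nat.isUnit_iff.1 (hm p h5))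
  have hp2 : ¬ (p : ℤ) ∣ 2 := by
    intro h
    have : p ∣ 2 := by exact_mod_cast h
    exact hps (this.trans h2s)
  have hpm : ¬ (p : ℤ) ∣ (m : ℤ) := by
    intro h
    have : p ∣ m := by exact_mod_cast h
    exact hps (this.trans hms)
  have hps' : ¬ (p : ℤ) ∣ (s : ℤ) := by
    intro h
    exact hps (by exact_mod_cast h)
  have hzp : z < p := by
    by_contra hcon
    exact hps (hz p hp (by omega))
  have hx : 1 + s * w ≤ 2 * s * W := by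
    have h1 : s * w ≤ s * W := Nat.mul_le_mul_left _ hwW
    have h2 : 1 ≤ s * W := Nat.mul_pos hs hW
    calc 1 + s * w ≤ s * W + s * W := by omega
      _ = _ := by ring
  obtain ⟨q, hq⟩ : ∃ q : ℤ, q = 1 + (s : ℤ) * y := ⟨_, rfl⟩
  obtain ⟨x, hxx⟩ : ∃ x : ℤ, x = 1 + (s : ℤ) * w := ⟨_, rfl⟩
  obtain ⟨A, hA⟩ : ∃ A : ℤ, A = x ^ 2 - (s : ℤ) ^ 2 * m * q := ⟨_, rfl⟩
  obtain ⟨B, hB⟩ : ∃ B : ℤ, B = x ^ 2 + (s : ℤ) ^ 2 * m * q := ⟨_, rfl⟩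
  rw [← hq, ← hxx] at hpv'
  rw [← hq, ← hxx, ← hA, ← hB]
  have hq0 : 0 < q := by rw [hq]; positivity
  have hx0 : 0 < x := by rw [hxx]; positivity
  have hqW : q ≤ (W : ℤ) ^ 2 := by rw [hq]; exact_mod_cast hyW
  have hxW : x ≤ 2 * s * W := by rw [hxx]; exact_mod_cast hx
  have hAB : ((p ^ 2 : ℕ) : ℤ) ∣ q * (A * B) := by
    have e1 : (m : ℤ) * (q * (x ^ 4 - (s : ℤ) ^ 4 * (m : ℤ) ^ 2 * q ^ 2)) = m * (q * (A * B)) := by rw [hA, hB]; ring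
    rw [e1] at hpv'
    exact (hcop _ hpm).dvd_of_dvd_mul_left hpv'
  have hA0 : 0 < A := by
    rw [hA, hq, hxx]
    have : ((s ^ 2 * m * (1 + s * y) : ℕ) : ℤ) < (((1 + s * w) ^ 2 : ℕ) : ℤ) := by exact_mod_cast hpos
    push_cast at this
    linarith
  have hsmq : 0 ≤ (s : ℤ) ^ 2 * m * q := by positivity
  have hAx : A ≤ x ^ 2 := by rw [hA]; linarith
  have hBx : B ≤ 2 * x ^ 2 := by
    have : B = 2 * x ^ 2 - A := by rw [hA, hB]; ring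
    linarith
  have hB0 : 0 < B := by rw [hB]; positivity
  have hW1 : (1 : ℤ) ≤ W := by exact_mod_cast hW
  have hs1 : (1 : ℤ) ≤ s := by exact_mod_cast hs
  have hsmall : ∀ u : ℤ, 0 < u → ((p ^ 2 : ℕ) : ℤ) ∣ u → u ≤ ((4 * s * W : ℕ) : ℤ) ^ 2 → p ≤ 4 * s * W := by
    intro u hu hd hle
    have h1 := (Int.le_of_dvd hu hd).trans hle
    have h2 : p ^ 2 ≤ (4 * s * W) ^ 2 := by exact_mod_cast h1
    exact (Nat.pow_le_pow_iff_left two_ne_zero).1 h2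
  have hsW : (W : ℤ) ≤ s * W := by nlinarith
  have hsq : x ^ 2 ≤ (2 * (s : ℤ) * W) ^ 2 := pow_le_pow_left₀ hx0.le hxW 2
  have hq_le : q ≤ ((4 * s * W : ℕ) : ℤ) ^ 2 := by
    push_cast
    nlinarith
  have hA_le : A ≤ ((4 * s * W : ℕ) : ℤ) ^ 2 := by
    push_cast
    nlinarith
  have hB_le : B ≤ ((4 * s * W : ℕ) : ℤ) ^ 2 := by
    push_cast
    nlinarith
  by_cases hd : (p : ℤ) ∣ q ∧ (p : ℤ) ∣ x
  · refine ⟨p, hp, hzp, ?_, hps, Or.inr hd⟩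
    have h1 : (p : ℤ) ≤ x := Int.le_of_dvd hx0 hd.2
    have h2 : (p : ℤ) ≤ ((4 * s * W : ℕ) : ℤ) := by
      push_cast
      nlinarith
    exact_mod_cast h2
  · have hqA : ¬ ((p : ℤ) ∣ q ∧ (p : ℤ) ∣ A) := by
      rintro ⟨h1, h2⟩
      apply hd
      refine ⟨h1, ?_⟩
      have h3 : (p : ℤ) ∣ x ^ 2 := by
        have := dvd_add h2 (h1.mul_left ((s : ℤ) ^ 2 * m))
        rw [hA, sub_add_cancel] at this
        exact this
      exact P.dvd_of_dvd_pow h3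
    have hqB : ¬ ((p : ℤ) ∣ q ∧ (p : ℤ) ∣ B) := by
      rintro ⟨h1, h2⟩
      apply hd
      refine ⟨h1, ?_⟩
      have h3 : (p : ℤ) ∣ x ^ 2 := by
        have := dvd_sub h2 (h1.mul_left ((s : ℤ) ^ 2 * m))
        rw [hB, add_sub_cancel_right] at this
        exact this
      exact P.dvd_of_dvd_pow h3
    have hABn : ¬ ((p : ℤ) ∣ A ∧ (p : ℤ) ∣ B) := by
      rintro ⟨h1, h2⟩
      apply hd
      constructor
      · have h3 := dvd_sub h2 h1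
        have e1 : B - A = 2 * ((s : ℤ) ^ 2 * (m * q)) := by rw [hA, hB]; ring
        rw [e1] at h3
        have h4 := (P.dvd_or_dvd h3).resolve_left hp2
        have h5 := (P.dvd_or_dvd h4).resolve_left (fun h => hps' (P.dvd_of_dvd_pow h))
        exact (P.dvd_or_dvd h5).resolve_left hpm
      · have h3 := dvd_add h2 h1
        have e1 : B + A = 2 * x ^ 2 := by rw [hA, hB]; ring
        rw [e1] at h3
        exact P.dvd_of_dvd_pow ((P.dvd_or_dvd h3).resolve_left hp2)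
    by_cases h1 : (p : ℤ) ∣ q
    · have h2 : ¬ (p : ℤ) ∣ A := fun h => hqA ⟨h1, h⟩
      have h3 : ¬ (p : ℤ) ∣ B := fun h => hqB ⟨h1, h⟩
      have h4 : ((p ^ 2 : ℕ) : ℤ) ∣ q := ((hcop _ h2).mul_right (hcop _ h3)).dvd_of_dvd_mul_right hAB
      exact ⟨p, hp, hzp, hsmall q hq0 h4 hq_le, hps, Or.inl (Or.inl h4)⟩
    · have h5 : ((p ^ 2 : ℕ) : ℤ) ∣ A * B := (hcop _ h1).dvd_of_dvd_mul_left hAB
      by_cases h2 : (p : ℤ) ∣ A
      · have h3 : ¬ (p : ℤ) ∣ B := fun h => hABn ⟨h2, h⟩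
        have h4 : ((p ^ 2 : ℕ) : ℤ) ∣ A := (hcop _ h3).dvd_of_dvd_mul_right h5
        exact ⟨p, hp, hzp, hsmall A hA0 h4 hA_le, hps, Or.inl (Or.inr (Or.inl h4))⟩
      · have h4 : ((p ^ 2 : ℕ) : ℤ) ∣ B := (hcop _ h2).dvd_of_dvd_mul_left h5
        exact ⟨p, hp, hzp, hsmall B hB0 h4 hB_le, hps, Or.inl (Or.inr (Or.inr h4))⟩

/-- pairs with a fixed second coordinate and first coordinates in one class -/
lemma card_class2 {q Y w : ℕ} (S : Finset (ℕ × ℕ)) (hS : ∀ v ∈ S, v.1 ≤ Y ∧ v.2 = w)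
    (h : ∀ v ∈ S, ∀ v' ∈ S, (q : ℤ) ∣ (v.1 : ℤ) - v'.1) : S.card ≤ Y / q + 1 := by
  have hinj : Set.InjOn Prod.fst (S : Set (ℕ × ℕ)) := by
    intro v hv v' hv' hvv
    exact Prod.ext hvv ((hS v hv).2.trans (hS v' hv').2.symm)
  rw [← card_image_of_injOn hinj]
  apply card_class
  · intro y hy
    obtain ⟨v, hv, rfl⟩ := mem_image.1 hy
    exact (hS v hv).1
  · intro y hy y' hy'
    obtain ⟨v, hv, rfl⟩ := mem_image.1 hy
    obtain ⟨v', hv', rfl⟩ := mem_image.1 hy'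
    exact h v hv v' hv'

/-- the pairs with a square `p ^ 2` dividing one factor -/
lemma card_bad_abc {m s p Y W : ℕ} (hp : p.Prime) (hps : ¬ p ∣ s) (hms : m ∣ s) (S : Finset (ℕ × ℕ))
    (hS : ∀ v ∈ S, v.1 ≤ Y ∧ 1 ≤ v.2 ∧ v.2 ≤ W)
    (h : ∀ v ∈ S, (((p ^ 2 : ℕ) : ℤ) ∣ 1 + (s : ℤ) * v.1 ∨
        ((p ^ 2 : ℕ) : ℤ) ∣ (1 + (s : ℤ) * v.2) ^ 2 - (s : ℤ) ^ 2 * m * (1 + (s : ℤ) * v.1) ∨
        ((p ^ 2 : ℕ) : ℤ) ∣ (1 + (s : ℤ) * v.2) ^ 2 + (s : ℤ) ^ 2 * m * (1 + (s : ℤ) * v.1))) :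
    S.card ≤ (3 * (Y / p ^ 2 + 1)) * W := by
  classical
  have P : Prime (p : ℤ) := Nat.prime_iff_prime_int.1 hp
  have hps' : ¬ (p : ℤ) ∣ (s : ℤ) := by
    intro h
    exact hps (by exact_mod_cast h)
  have hpm : ¬ (p : ℤ) ∣ (m : ℤ) := by
    intro h
    have : p ∣ m := by exact_mod_cast h
    exact hps (this.trans hms)
  have hcop : ∀ u : ℤ, ¬ (p : ℤ) ∣ u → IsCoprime (((p ^ 2 : ℕ) : ℤ)) u := fun u hu => by
    push_cast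
    exact ((Prime.coprime_iff_not_dvd P).2 hu).pow_left
  have hcs := hcop _ hps'
  have hcsm : IsCoprime (((p ^ 2 : ℕ) : ℤ)) ((s : ℤ) ^ 2 * m * s) :=
    ((hcs.pow_right).mul_right (hcop _ hpm)).mul_right hcs
  have hfib : ∀ w ∈ S.image Prod.snd, (S.filter (fun v => v.2 = w)).card ≤ 3 * (Y / p ^ 2 + 1) := by
    intro w _
    obtain ⟨S₁, hS₁⟩ : ∃ S₁ : Finset (ℕ × ℕ), S₁ = (S.filter (fun v => v.2 = w)).filter
      (fun v : ℕ × ℕ => ((p ^ 2 : ℕ) : ℤ) ∣ 1 + (s : ℤ) * v.1) := ⟨_, rfl⟩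
    obtain ⟨S₂, hS₂⟩ : ∃ S₂ : Finset (ℕ × ℕ), S₂ = (S.filter (fun v => v.2 = w)).filter
      (fun v : ℕ × ℕ => ((p ^ 2 : ℕ) : ℤ) ∣ (1 + (s : ℤ) * v.2) ^ 2 - (s : ℤ) ^ 2 * m * (1 + (s : ℤ) * v.1)) := ⟨_, rfl⟩
    obtain ⟨S₃, hS₃⟩ : ∃ S₃ : Finset (ℕ × ℕ), S₃ = (S.filter (fun v => v.2 = w)).filter
      (fun v : ℕ × ℕ => ((p ^ 2 : ℕ) : ℤ) ∣ (1 + (s : ℤ) * v.2) ^ 2 + (s : ℤ) ^ 2 * m * (1 + (s : ℤ) * v.1)) := ⟨_, rfl⟩
    have hsub : S.filter (fun v => v.2 = w) ⊆ S₁ ∪ (S₂ ∪ S₃) := by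
      intro v hv
      rcases h v (mem_filter.1 hv).1 with h1 | h1 | h1
      · exact mem_union_left _ (by rw [hS₁, mem_filter]; exact ⟨hv, h1⟩)
      · exact mem_union_right _ (mem_union_left _ (by rw [hS₂, mem_filter]; exact ⟨hv, h1⟩))
      · exact mem_union_right _ (mem_union_right _ (by rw [hS₃, mem_filter]; exact ⟨hv, h1⟩))
    have c1 : S₁.card ≤ Y / p ^ 2 + 1 := by
      apply card_class2 (w := w)
      · intro v hv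
        rw [hS₁, mem_filter, mem_filter] at hv
        exact ⟨(hS v hv.1.1).1, hv.1.2⟩
      · intro v hv v' hv'
        rw [hS₁, mem_filter, mem_filter] at hv hv'
        have h1 := dvd_sub hv.2 hv'.2
        have e1 : 1 + (s : ℤ) * v.1 - (1 + (s : ℤ) * v'.1) = s * ((v.1 : ℤ) - v'.1) := by ring
        rw [e1] at h1
        exact hcs.dvd_of_dvd_mul_left h1
    have c2 : S₂.card ≤ Y / p ^ 2 + 1 := by
      apply card_class2 (w := w)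
      · intro v hv
        rw [hS₂, mem_filter, mem_filter] at hv
        exact ⟨(hS v hv.1.1).1, hv.1.2⟩
      · intro v hv v' hv'
        rw [hS₂, mem_filter, mem_filter] at hv hv'
        have h1 := dvd_sub hv'.2 hv.2
        rw [hv.1.2, hv'.1.2] at h1
        have e1 : (1 + (s : ℤ) * w) ^ 2 - (s : ℤ) ^ 2 * m * (1 + (s : ℤ) * v'.1) -
          ((1 + (s : ℤ) * w) ^ 2 - (s : ℤ) ^ 2 * m * (1 + (s : ℤ) * v.1)) = (s : ℤ) ^ 2 * m * s * ((v.1 : ℤ) - v'.1) := by ring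
        rw [e1] at h1
        exact hcsm.dvd_of_dvd_mul_left h1
    have c3 : S₃.card ≤ Y / p ^ 2 + 1 := by
      apply card_class2 (w := w)
      · intro v hv
        rw [hS₃, mem_filter, mem_filter] at hv
        exact ⟨(hS v hv.1.1).1, hv.1.2⟩
      · intro v hv v' hv'
        rw [hS₃, mem_filter, mem_filter] at hv hv'
        have h1 := dvd_sub hv.2 hv'.2
        rw [hv.1.2, hv'.1.2] at h1
        have e1 : (1 + (s : ℤ) * w) ^ 2 + (s : ℤ) ^ 2 * m * (1 + (s : ℤ) * v.1) -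
          ((1 + (s : ℤ) * w) ^ 2 + (s : ℤ) ^ 2 * m * (1 + (s : ℤ) * v'.1)) = (s : ℤ) ^ 2 * m * s * ((v.1 : ℤ) - v'.1) := by ring
        rw [e1] at h1
        exact hcsm.dvd_of_dvd_mul_left h1
    have h1 := card_le_card hsub
    have h2 := card_union_le S₁ (S₂ ∪ S₃)
    have h3 := card_union_le S₂ S₃
    omega
  have h1 := card_le_mul_card_image (f := Prod.snd) S (3 * (Y / p ^ 2 + 1)) hfib
  refine h1.trans (Nat.mul_le_mul_left _ ?_)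
  have h2 : S.image Prod.snd ⊆ Icc 1 W := by
    intro w hw
    obtain ⟨v, hv, rfl⟩ := mem_image.1 hw
    rw [mem_Icc]
    exact (hS v hv).2
  have h3 := card_le_card h2
  rw [Nat.card_Icc] at h3
  omega

/-- the pairs with `p` dividing both `1 + s y` and `1 + s w` -/
lemma card_bad_d {s p Y W : ℕ} (hp : p.Prime) (hps : ¬ p ∣ s) (S : Finset (ℕ × ℕ))
    (hS : ∀ v ∈ S, v.1 ≤ Y ∧ v.2 ≤ W) (h : ∀ v ∈ S, (p : ℤ) ∣ 1 + (s : ℤ) * v.1 ∧ (p : ℤ) ∣ 1 + (s : ℤ) * v.2) :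
    S.card ≤ (Y / p + 1) * (W / p + 1) := by
  classical
  have P : Prime (p : ℤ) := Nat.prime_iff_prime_int.1 hp
  have hps' : ¬ (p : ℤ) ∣ (s : ℤ) := by
    intro h
    exact hps (by exact_mod_cast h)
  have hcls : ∀ y y' : ℕ, (p : ℤ) ∣ 1 + (s : ℤ) * y → (p : ℤ) ∣ 1 + (s : ℤ) * y' → (p : ℤ) ∣ (y : ℤ) - y' := by
    intro y y' h1 h2
    have h3 := dvd_sub h1 h2
    have e1 : 1 + (s : ℤ) * y - (1 + (s : ℤ) * y') = s * ((y : ℤ) - y') := by ring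
    rw [e1] at h3
    exact (P.dvd_or_dvd h3).resolve_left hps'
  have hsub : S ⊆ S.image Prod.fst ×ˢ S.image Prod.snd := by
    intro v hv
    rw [mem_product]
    exact ⟨mem_image_of_mem _ hv, mem_image_of_mem _ hv⟩
  have h1 := card_le_card hsub
  rw [card_product] at h1
  refine h1.trans (Nat.mul_le_mul ?_ ?_)
  · apply card_class
    · intro y hy
      obtain ⟨v, hv, rfl⟩ := mem_image.1 hy
      exact (hS v hv).1
    · intro y hy y' hy'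
      obtain ⟨v, hv, rfl⟩ := mem_image.1 hy
      obtain ⟨v', hv', rfl⟩ := mem_image.1 hy'
      exact hcls _ _ (h v hv).1 (h v' hv').1
  · apply card_class
    · intro y hy
      obtain ⟨v, hv, rfl⟩ := mem_image.1 hy
      exact (hS v hv).2
    · intro y hy y' hy'
      obtain ⟨v, hv, rfl⟩ := mem_image.1 hy
      obtain ⟨v', hv', rfl⟩ := mem_image.1 hy'
      exact hcls _ _ (h v hv).2 (h v' hv').2

/-- the sieve in two variables -/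
theorem sieve2 {m s z Y W : ℕ} (hm : Squarefree m) (hs : 0 < s) (h2s : 2 ∣ s) (hms : m ∣ s) (hz1 : 1 ≤ z)
    (hz : ∀ p : ℕ, p.Prime → p ≤ z → p ∣ s) (hW : 1 ≤ W) (hYW : 1 + s * Y ≤ W ^ 2) (T : Finset (ℕ × ℕ))
    (hT : ∀ v ∈ T, v.1 ≤ Y ∧ 1 ≤ v.2 ∧ v.2 ≤ W ∧ s ^ 2 * m * (1 + s * v.1) < (1 + s * v.2) ^ 2 ∧
      ¬ Squarefree (val2 m s v.1 v.2)) :
    (T.card : ℝ) ≤ 4 * (W * Y) / z + (Y + W) * (1 + Real.log ((4 * s * W : ℕ) : ℝ)) + (3 * W + 1) * ((4 * s * W : ℕ) : ℝ) := by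
  classical
  obtain ⟨L, hL⟩ : ∃ L : ℕ, L = 4 * s * W := ⟨_, rfl⟩
  rw [← hL]
  obtain ⟨Pr, hPr⟩ : ∃ Pr : Finset ℕ, Pr = (Ioc z L).filter (fun p => p.Prime ∧ ¬ p ∣ s) := ⟨_, rfl⟩
  obtain ⟨S₁, hS₁⟩ : ∃ S₁ : ℕ → Finset (ℕ × ℕ), S₁ = fun p : ℕ => T.filter (fun v : ℕ × ℕ =>
    (((p ^ 2 : ℕ) : ℤ) ∣ 1 + (s : ℤ) * v.1 ∨
        ((p ^ 2 : ℕ) : ℤ) ∣ (1 + (s : ℤ) * v.2) ^ 2 - (s : ℤ) ^ 2 * m * (1 + (s : ℤ) * v.1) ∨
        ((p ^ 2 : ℕ) : ℤ) ∣ (1 + (s : ℤ) * v.2) ^ 2 + (s : ℤ) ^ 2 * m * (1 + (s : ℤ) * v.1))) := ⟨_, rfl⟩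
  obtain ⟨S₂, hS₂⟩ : ∃ S₂ : ℕ → Finset (ℕ × ℕ), S₂ = fun p : ℕ => T.filter (fun v : ℕ × ℕ =>
    ((p : ℤ) ∣ 1 + (s : ℤ) * v.1 ∧ (p : ℤ) ∣ 1 + (s : ℤ) * v.2)) := ⟨_, rfl⟩
  have hsub : T ⊆ Pr.biUnion fun p => S₁ p ∪ S₂ p := by
    intro v hv
    obtain ⟨h1, h2, h3, h4, h5⟩ := hT v hv
    have h6 : 1 + s * v.1 ≤ W ^ 2 := by
      have : s * v.1 ≤ s * Y := Nat.mul_le_mul_left _ h1
      omega
    obtain ⟨p, hp, hzp, hpL, hps, hor⟩ := bad_pair hm hs h2s hms hz h4 h6 h3 hW h5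
    rw [mem_biUnion]
    refine ⟨p, ?_, ?_⟩
    · rw [hPr, mem_filter, mem_Ioc, hL]
      exact ⟨⟨hzp, hpL⟩, hp, hps⟩
    · rw [mem_union, hS₁, hS₂, mem_filter, mem_filter]
      rcases hor with h7 | h7
      · exact Or.inl ⟨hv, h7⟩
      · exact Or.inr ⟨hv, h7⟩
  have hcard : ∀ p ∈ Pr, ((S₁ p ∪ S₂ p).card : ℝ) ≤
      4 * (W * Y) * ((p : ℝ) ^ 2)⁻¹ + (Y + W) * (p : ℝ)⁻¹ + (3 * W + 1) := by
    intro p hp
    rw [hPr, mem_filter] at hp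
    obtain ⟨-, hp, hps⟩ := hp
    have h1 : (S₁ p).card ≤ (3 * (Y / p ^ 2 + 1)) * W := by
      apply card_bad_abc hp hps hms
      · intro v hv
        rw [hS₁] at hv
        obtain ⟨h1, h2, h3, -⟩ := hT v (mem_filter.1 hv).1
        exact ⟨h1, h2, h3⟩
      · intro v hv
        rw [hS₁] at hv
        exact (mem_filter.1 hv).2
    have h2 : (S₂ p).card ≤ (Y / p + 1) * (W / p + 1) := by
      apply card_bad_d hp hps
      · intro v hv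
        rw [hS₂] at hv
        obtain ⟨h1, h2, h3, -⟩ := hT v (mem_filter.1 hv).1
        exact ⟨h1, h3⟩
      · intro v hv
        rw [hS₂] at hv
        exact (mem_filter.1 hv).2
    have h3 := card_union_le (S₁ p) (S₂ p)
    have h4 : ((S₁ p ∪ S₂ p).card : ℝ) ≤ (3 * (((Y / p ^ 2 : ℕ) : ℝ) + 1)) * W + (((Y / p : ℕ) : ℝ) + 1) * (((W / p : ℕ) : ℝ) + 1) := by
      have : (S₁ p ∪ S₂ p).card ≤ (3 * (Y / p ^ 2 + 1)) * W + (Y / p + 1) * (W / p + 1) := by omega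
      exact_mod_cast this
    have h5 : ((Y / p ^ 2 : ℕ) : ℝ) ≤ (Y : ℝ) / ((p ^ 2 : ℕ) : ℝ) := Nat.cast_div_le
    have h6 : ((Y / p : ℕ) : ℝ) ≤ (Y : ℝ) / (p : ℝ) := Nat.cast_div_le
    have h7 : ((W / p : ℕ) : ℝ) ≤ (W : ℝ) / (p : ℝ) := Nat.cast_div_le
    push_cast at h5
    have hW0 : (0 : ℝ) ≤ W := by positivity
    have hY0 : (0 : ℝ) ≤ Y := by positivity
    calc ((S₁ p ∪ S₂ p).card : ℝ) ≤ (3 * (((Y / p ^ 2 : ℕ) : ℝ) + 1)) * W + (((Y / p : ℕ) : ℝ) + 1) * (((W / p : ℕ) : ℝ) + 1) := h4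
      _ ≤ (3 * ((Y : ℝ) / (p : ℝ) ^ 2 + 1)) * W + ((Y : ℝ) / (p : ℝ) + 1) * ((W : ℝ) / (p : ℝ) + 1) := by gcongr
      _ = _ := by
        have hp0 : (p : ℝ) ≠ 0 := by exact_mod_cast hp.ne_zero
        field_simp
        ring
  have h1 : (T.card : ℝ) ≤ ∑ p ∈ Pr, (4 * (W * Y) * ((p : ℝ) ^ 2)⁻¹ + (Y + W) * (p : ℝ)⁻¹ + (3 * W + 1)) := by
    calc (T.card : ℝ) ≤ ((Pr.biUnion fun p => S₁ p ∪ S₂ p).card : ℝ) := by
          exact_mod_cast card_le_card hsub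
      _ ≤ ((∑ p ∈ Pr, (S₁ p ∪ S₂ p).card : ℕ) : ℝ) := by
          exact_mod_cast card_biUnion_le
      _ = ∑ p ∈ Pr, ((S₁ p ∪ S₂ p).card : ℝ) := by push_cast; rfl
      _ ≤ _ := sum_le_sum hcard
  rw [sum_add_distrib, sum_add_distrib, ← mul_sum, ← mul_sum, sum_const, nsmul_eq_mul] at h1
  have h2 : ∑ p ∈ Pr, ((p : ℝ) ^ 2)⁻¹ ≤ 1 / z := by
    rcases Nat.lt_or_ge L z with hLz | hLz
    · have : Pr = ∅ := by
        rw [hPr, Ioc_eq_empty (by omega), filter_empty]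
      rw [this, sum_empty]
      positivity
    · calc ∑ p ∈ Pr, ((p : ℝ) ^ 2)⁻¹ ≤ ∑ p ∈ Ioc z L, ((p : ℝ) ^ 2)⁻¹ := by
            apply sum_le_sum_of_subset_of_nonneg
            · rw [hPr]
              exact filter_subset _ _
            · intro i _ _
              positivity
        _ ≤ (z : ℝ)⁻¹ - (L : ℝ)⁻¹ := sum_Ioc_inv_sq_le_sub (by omega) hLz
        _ ≤ 1 / z := by
            rw [one_div]
            have : (0 : ℝ) ≤ (L : ℝ)⁻¹ := by positivity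
            linarith
  have h3 : ∑ p ∈ Pr, (p : ℝ)⁻¹ ≤ 1 + Real.log L := by
    calc ∑ p ∈ Pr, (p : ℝ)⁻¹ ≤ ∑ p ∈ Icc 1 L, (p : ℝ)⁻¹ := by
          apply sum_le_sum_of_subset_of_nonneg
          · intro p hp
            rw [hPr, mem_filter, mem_Ioc] at hp
            rw [mem_Icc]
            exact ⟨by omega, hp.1.2⟩
          · intro i _ _
            positivity
      _ = ((harmonic L : ℚ) : ℝ) := by
          rw [harmonic_eq_sum_Icc]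
          push_cast
          rfl
      _ ≤ 1 + Real.log L := harmonic_le_one_add_log L
  have h4 : (Pr.card : ℝ) ≤ L := by
    have h5 : Pr.card ≤ L := by
      have h6 : Pr ⊆ Icc 1 L := by
        intro p hp
        rw [hPr, mem_filter, mem_Ioc] at hp
        rw [mem_Icc]
        exact ⟨by omega, hp.1.2⟩
      have h7 := card_le_card h6
      rw [Nat.card_Icc] at h7
      omega
    exact_mod_cast h5
  have hY0 : (0 : ℝ) ≤ 4 * (W * Y) := by positivity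
  have hYW0 : (0 : ℝ) ≤ (Y : ℝ) + W := by positivity
  have hW30 : (0 : ℝ) ≤ 3 * (W : ℝ) + 1 := by positivity
  calc (T.card : ℝ) ≤ 4 * (W * Y) * ∑ p ∈ Pr, ((p : ℝ) ^ 2)⁻¹ + (Y + W) * ∑ p ∈ Pr, (p : ℝ)⁻¹ + (Pr.card : ℝ) * (3 * W + 1) := h1
    _ ≤ 4 * (W * Y) * (1 / z) + (Y + W) * (1 + Real.log L) + L * (3 * W + 1) := by
        gcongr
    _ = _ := by ring

end Pool.Agent.N650.PB
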