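import Pool.Agent.N650.PB.Main
import Pool.Agent.N650.PB.Sv2

/-!
# Every squarefree number is a limit of squarefree congruent numbers for all real polynomial phases: many of them
-/

set_option autoImplicit false

namespace Pool.Agent.N650.PB

open Finset Polynomial

lemma cong_gen {x s μ n : ℕ} (hx : Odd x) (h2s : 2 ∣ s) (hs : 0 < s) (hμ : 0 < μ) (hlt : s ^ 2 * μ < x ^ 2)
    (hn : (n : ℤ) = μ * ((x : ℤ) ^ 4 - (s : ℤ) ^ 4 * (μ : ℤ) ^ 2)) : Congruent n := by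
  have hx0 : 0 < x := hx.pos
  have hxodd : Odd (x : ℤ) := by exact_mod_cast hx
  have hse : Even ((s : ℤ) ^ 2 * μ) := by
    have h2 : Even (s : ℤ) := by
      rw [Int.even_coe_nat]
      exact even_iff_two_dvd.2 h2s
    exact (h2.pow_of_ne_zero two_ne_zero).mul_right _
  obtain ⟨a, ha⟩ : ∃ a : ℤ, a = (x : ℤ) ^ 2 := ⟨_, rfl⟩
  obtain ⟨b, hb⟩ : ∃ b : ℤ, b = (s : ℤ) ^ 2 * μ := ⟨_, rfl⟩
  have hab : b < a := by
    rw [ha, hb]
    exact_mod_cast hlt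
  have hb0 : 0 < b := by rw [hb]; positivity
  have haodd : Odd a := by rw [ha]; exact hxodd.pow
  have hbe : Even b := by rw [hb]; exact hse
  have hT : a ^ 2 - b ^ 2 - 2 * a * b ≠ 0 := by
    intro h0
    have h1 : Odd (a ^ 2 - b ^ 2 - 2 * a * b) := by
      have e1 : Even (b ^ 2) := hbe.pow_of_ne_zero two_ne_zero
      have e2 : Even (2 * a * b) := hbe.mul_left _
      exact (haodd.pow.sub_even e1).sub_even e2
    rw [h0] at h1
    exact (by decide : ¬ Odd (0 : ℤ)) h1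
  have hZ : a ^ 2 - b ^ 2 + 2 * a * b ≠ 0 := by
    have : 0 < a ^ 2 - b ^ 2 + 2 * a * b := by nlinarith
    exact this.ne'
  refine ⟨(x ^ 2) ^ 2 + (s ^ 2 * μ) ^ 2, 2 * x * s, (a ^ 2 - b ^ 2 + 2 * a * b).natAbs,
    (a ^ 2 - b ^ 2 - 2 * a * b).natAbs, by positivity, by positivity, Int.natAbs_pos.2 hZ, Int.natAbs_pos.2 hT, ?_, ?_⟩
  · zify
    rw [sq_abs, hn, ha, hb]
    ring
  · zify
    rw [sq_abs, hn, ha, hb]
    ring

lemma val2_congruent {m s y w : ℕ} (hm : 0 < m) (hs : 0 < s) (h2s : 2 ∣ s)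
    (h : s ^ 2 * m * (1 + s * y) < (1 + s * w) ^ 2) : Congruent (val2 m s y w) := by
  apply cong_gen (x := 1 + s * w) (s := s) (μ := m * (1 + s * y)) _ h2s hs (by positivity) (by rw [← mul_assoc]; exact h)
  · rw [val2_cast h]
    push_cast
    ring
  · have h1 : Even (s * w) := (even_iff_two_dvd.2 h2s).mul_right _
    exact Odd.add_even odd_one h1

lemma val2_mod {m s y w q : ℕ} (h : s ^ 2 * m * (1 + s * y) < (1 + s * w) ^ 2) (hq : q ∣ s) :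
    (1 + s * y) * ((1 + s * w) ^ 4 - s ^ 4 * m ^ 2 * (1 + s * y) ^ 2) ≡ 1 [MOD q] := by
  have h2 := sub_ok h
  apply Nat.ModEq.symm
  rw [Nat.modEq_iff_dvd]
  have h3 : (q : ℤ) ∣ (s : ℤ) := by exact_mod_cast hq
  refine h3.trans ?_
  push_cast [Nat.cast_sub h2]
  refine ⟨(y : ℤ) * (1 + (s : ℤ) * w) ^ 4 + (4 * w + 6 * (s : ℤ) * w ^ 2 + 4 * (s : ℤ) ^ 2 * w ^ 3 + (s : ℤ) ^ 3 * w ^ 4) -
    (s : ℤ) ^ 3 * (m : ℤ) ^ 2 * (1 + (s : ℤ) * y) ^ 3, ?_⟩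
  ring

lemma val2_inj {m s y w w' : ℕ} (hm : 0 < m) (hs : 0 < s) (h : s ^ 2 * m * (1 + s * y) < (1 + s * w) ^ 2)
    (h' : s ^ 2 * m * (1 + s * y) < (1 + s * w') ^ 2) (hv : val2 m s y w = val2 m s y w') : w = w' := by
  have h1 := val2_cast h
  rw [hv, val2_cast h'] at h1
  have hm' : (m : ℤ) ≠ 0 := by exact_mod_cast hm.ne'
  have hq' : (1 + (s : ℤ) * y) ≠ 0 := by positivity
  have h2 := mul_left_cancel₀ hq' (mul_left_cancel₀ hm' h1)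
  have h3 : (1 + (s : ℤ) * w') ^ 4 = (1 + (s : ℤ) * w) ^ 4 := by linarith
  have h4 : (1 + s * w') ^ 4 = (1 + s * w) ^ 4 := by exact_mod_cast h3
  have h5 : 1 + s * w' = 1 + s * w := Nat.pow_left_injective (n := 4) (by norm_num) h4
  have h6 : s * w' = s * w := by omega
  exact (Nat.eq_of_mul_eq_mul_left hs h6).symm

lemma val2_le {m s y w W : ℕ} (hs : 0 < s) (hW : 1 ≤ W) (hyW : 1 + s * y ≤ W ^ 2) (hwW : w ≤ W) :
    val2 m s y w ≤ 16 * m * s ^ 4 * W ^ 6 := by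
  have hx : 1 + s * w ≤ 2 * s * W := by
    have h1 : s * w ≤ s * W := Nat.mul_le_mul_left _ hwW
    have h2 : 1 ≤ s * W := Nat.mul_pos hs hW
    calc 1 + s * w ≤ s * W + s * W := by omega
      _ = _ := by ring
  calc val2 m s y w ≤ m * ((1 + s * y) * (1 + s * w) ^ 4) :=
        Nat.mul_le_mul_left _ (Nat.mul_le_mul_left _ (Nat.sub_le _ _))
    _ ≤ m * (W ^ 2 * (2 * s * W) ^ 4) :=
        Nat.mul_le_mul_left _ (Nat.mul_le_mul hyW (Nat.pow_le_pow_left hx 4))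
    _ = _ := by ring

/-- the logarithm is small -/
lemma log_small {s : ℕ} (hs : 0 < s) {κ : ℝ} (hκ : 0 < κ) : ∃ W₁ : ℕ, ∀ W : ℕ, W₁ ≤ W →
    2 * (1 + Real.log ((4 * s * W : ℕ) : ℝ)) + 16 * s ≤ κ * W := by
  have hs' : (0 : ℝ) < s := by exact_mod_cast hs
  have h1 := Real.isLittleO_log_id_atTop.bound (c := κ / (16 * s)) (by positivity)
  have hT : Filter.Tendsto (fun W : ℕ => ((4 * s * W : ℕ) : ℝ)) Filter.atTop Filter.atTop := by
    apply tendsto_natCast_atTop_atTop.comp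
    exact Filter.tendsto_id.const_mul_atTop' (by positivity)
  have h2 := hT.eventually h1
  have h3 : Filter.Tendsto (fun W : ℕ => (W : ℝ)) Filter.atTop Filter.atTop := tendsto_natCast_atTop_atTop
  have h4 := h3.eventually_ge_atTop ((2 + 16 * s) * 2 / κ)
  obtain ⟨W₁, h⟩ := Filter.eventually_atTop.1 (h2.and h4)
  refine ⟨W₁, fun W hW => ?_⟩
  obtain ⟨a1, a2⟩ := h W hW
  rw [div_le_iff₀ hκ] at a2
  have a3 : Real.log ((4 * s * W : ℕ) : ℝ) ≤ κ / 4 * W := by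
    refine (Real.le_norm_self _).trans (a1.trans (le_of_eq ?_))
    rw [id, Real.norm_of_nonneg (by positivity)]
    push_cast
    field_simp
    norm_num
  linarith

/-- from the integral parts to real numbers -/
lemma real_bound {N₀ Y g : ℕ} (hN₀ : 1 ≤ N₀) (h : Y / N₀ ≤ g * N₀) : (Y : ℝ) / (N₀ : ℝ) ^ 2 - 1 ≤ g := by
  have hN₀' : (1 : ℝ) ≤ N₀ := by exact_mod_cast hN₀
  have h1 : ((Y / N₀ : ℕ) : ℝ) ≤ (g : ℝ) * N₀ := by exact_mod_cast h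
  have h2 : (Y : ℝ) / N₀ - 1 ≤ ((Y / N₀ : ℕ) : ℝ) := by
    have h3 := Nat.lt_div_mul_add (a := Y) (show 0 < N₀ by omega)
    have h4 : (Y : ℝ) < ((Y / N₀ : ℕ) : ℝ) * N₀ + N₀ := by exact_mod_cast h3
    rw [sub_le_iff_le_add, div_le_iff₀ (by linarith)]
    nlinarith
  have h3 : (Y : ℝ) / (N₀ : ℝ) ^ 2 - 1 ≤ ((Y : ℝ) / N₀ - 1) / N₀ := by
    have e1 : ((Y : ℝ) / N₀ - 1) / N₀ = (Y : ℝ) / (N₀ : ℝ) ^ 2 - 1 / N₀ := by field_simp
    rw [e1]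
    have : 1 / (N₀ : ℝ) ≤ 1 := by
      rw [div_le_one (by linarith)]
      exact hN₀'
    linarith
  refine h3.trans ?_
  rw [div_le_iff₀ (by linarith)]
  linarith

/-- the main theorem, in terms of `W` -/
theorem main_W (K : Type) [Finite K] (P : K → ℝ[X]) {ε : ℝ} (hε : 0 < ε) {m : ℕ} (hm : Squarefree m) {M : ℕ}
    (hM : 1 ≤ M) :
    ∃ c : ℝ, 0 < c ∧ ∃ B W₀ : ℕ, 1 ≤ B ∧ ∀ W : ℕ, W₀ ≤ W → ∃ S : Finset ℕ,
      (∀ τ : ℕ, (∀ n ∈ S, n.divisors.card ≤ τ) → c * (W : ℝ) ^ 3 ≤ τ * S.card) ∧ ∀ n ∈ S, n ≤ B * W ^ 6 ∧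
      Squarefree n ∧ Congruent n ∧ (∃ n' : ℕ, n = m * n' ∧ n' ≡ 1 [MOD M]) ∧ n ≡ m [MOD 8] ∧
      ∀ k, NearInt ε ((P k).eval (n : ℝ) - (P k).eval (m : ℝ)) := by
  classical
  have _ := Fintype.ofFinite K
  have hm0 : 0 < m := Nat.pos_of_ne_zero (by rintro rfl; exact not_squarefree_zero hm)
  obtain ⟨D, hD⟩ : ∃ D : ℕ, D = univ.sup (fun k => (P k).natDegree) := ⟨_, rfl⟩
  have hdeg : ∀ k, (P k).natDegree ≤ D := fun k => by
    rw [hD]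
    exact le_sup (f := fun k => (P k).natDegree) (mem_univ k)
  have hε3 : 0 < ε / 3 := by positivity
  obtain ⟨N₀, hN₀, hrec⟩ := rec_density K (D * 4) hε3
  have hN₀' : (1 : ℝ) ≤ N₀ := by exact_mod_cast hN₀
  obtain ⟨z, hz⟩ : ∃ z : ℕ, z = 64 * N₀ ^ 4 := ⟨_, rfl⟩
  have hz1 : 1 ≤ z := by
    rw [hz]
    have : 0 < 64 * N₀ ^ 4 := by positivity
    omega
  obtain ⟨V, hV⟩ : ∃ V : ℕ, V = 8 * m * M * z.factorial := ⟨_, rfl⟩
  have hV0 : 0 < V := by rw [hV]; have := z.factorial_pos; positivity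
  obtain ⟨N₁, hpoly⟩ := rec_poly K (D * 4) hε3
  obtain ⟨a, ha1, -, ha⟩ := hpoly (fun k => (P k).comp (C (m : ℝ) - C ((V : ℝ) ^ 4 * (m : ℝ) ^ 3) * X ^ 4)) (fun k => by
    refine natDegree_comp_le.trans (Nat.mul_le_mul (hdeg k) ?_)
    compute_degree)
  obtain ⟨s, hs⟩ : ∃ s : ℕ, s = V * a := ⟨_, rfl⟩
  have hs0 : 0 < s := by rw [hs]; positivity
  have hVs : V ∣ s := by rw [hs]; exact dvd_mul_right _ _
  have h8 : 8 ∣ s := (by rw [hV]; exact ⟨m * M * z.factorial, by ring⟩ : 8 ∣ V).trans hVs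
  have h2 : 2 ∣ s := (by norm_num : 2 ∣ 8).trans h8
  have hms : m ∣ s := (by rw [hV]; exact ⟨8 * M * z.factorial, by ring⟩ : m ∣ V).trans hVs
  have hMs : M ∣ s := (by rw [hV]; exact ⟨8 * m * z.factorial, by ring⟩ : M ∣ V).trans hVs
  have hzs : ∀ p : ℕ, p.Prime → p ≤ z → p ∣ s := by
    intro p hp hpz
    have h1 : p ∣ z.factorial := hp.dvd_factorial.2 hpz
    have h2 : z.factorial ∣ V := by rw [hV]; exact dvd_mul_left _ _
    exact (h1.trans h2).trans hVs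
  -- the polynomials in `y`
  obtain ⟨R₁, hR₁⟩ : ∃ R₁ : K → ℝ[X], R₁ = fun k => (P k).comp (C (m : ℝ) * ((1 + C (s : ℝ) * X) *
    (1 - C ((s : ℝ) ^ 4 * (m : ℝ) ^ 2) * (1 + C (s : ℝ) * X) ^ 2))) := ⟨_, rfl⟩
  have hR₁deg : ∀ k, (R₁ k).natDegree ≤ D * 4 := fun k => by
    rw [hR₁]
    refine natDegree_comp_le.trans (Nat.mul_le_mul (hdeg k) ?_)
    compute_degree
    norm_num
  -- the polynomials in `w`
  obtain ⟨R₂, hR₂⟩ : ∃ R₂ : ℕ → K → ℝ[X], R₂ = fun (y : ℕ) k => (P k).comp (C ((m : ℝ) * (1 + (s : ℝ) * y)) *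
    ((1 + C (s : ℝ) * X) ^ 4 - C ((s : ℝ) ^ 4 * (m : ℝ) ^ 2 * (1 + (s : ℝ) * y) ^ 2))) := ⟨_, rfl⟩
  have hR₂deg : ∀ y k, (R₂ y k).natDegree ≤ D * 4 := fun y k => by
    rw [hR₂]
    refine natDegree_comp_le.trans (Nat.mul_le_mul (hdeg k) ?_)
    compute_degree
  have hR₂eval : ∀ k, ∀ y w : ℕ, s ^ 2 * m * (1 + s * y) < (1 + s * w) ^ 2 →
      (R₂ y k).eval (w : ℝ) = (P k).eval ((val2 m s y w : ℕ) : ℝ) := fun k y w h => by
    have h1 : ((val2 m s y w : ℕ) : ℝ) = m * ((1 + (s : ℝ) * y) * ((1 + (s : ℝ) * w) ^ 4 -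
        (s : ℝ) ^ 4 * (m : ℝ) ^ 2 * (1 + (s : ℝ) * y) ^ 2)) := by
      have := val2_cast h
      exact_mod_cast this
    rw [h1, hR₂]
    simp only [eval_comp, eval_sub, eval_mul, eval_C, eval_pow, eval_add, eval_one, eval_X, mul_assoc]
  have hR₂zero : ∀ k, ∀ y : ℕ, (R₂ y k).eval 0 = (R₁ k).eval (y : ℝ) := fun k y => by
    rw [hR₂, hR₁]
    simp only [eval_comp, eval_sub, eval_mul, eval_C, eval_pow, eval_add, eval_one, eval_X, mul_zero, add_zero, one_pow, mul_assoc]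
  have hR₁zero : ∀ k, NearInt (ε / 3) ((R₁ k).eval 0 - (P k).eval (m : ℝ)) := fun k => by
    have h1 := ha k
    simp only [eval_comp, eval_sub, eval_mul, eval_C, eval_pow, eval_X] at h1
    rw [hR₁]
    simp only [eval_comp, eval_sub, eval_mul, eval_C, eval_pow, eval_add, eval_one, eval_X]
    have e1 : (m : ℝ) * ((1 + (s : ℝ) * 0) * (1 - (s : ℝ) ^ 4 * (m : ℝ) ^ 2 * (1 + (s : ℝ) * 0) ^ 2)) =
        (m : ℝ) - (V : ℝ) ^ 4 * (m : ℝ) ^ 3 * (a : ℝ) ^ 4 := by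
      rw [hs]
      push_cast
      ring
    have e2 : (m : ℝ) - (V : ℝ) ^ 4 * (m : ℝ) ^ 3 * (0 : ℝ) ^ 4 = m := by ring
    rw [e2] at h1
    rw [e1]
    exact h1
  -- constants
  obtain ⟨R, hR⟩ : ∃ R : ℕ, R = 4 * N₀ ^ 2 := ⟨_, rfl⟩
  have hR0 : 0 < R := by rw [hR]; positivity
  obtain ⟨H, hH⟩ : ∃ H : ℕ, H = 2 * m * s * R ^ 2 := ⟨_, rfl⟩
  have hH0 : 0 < H := by rw [hH]; positivity
  have hH' : (0 : ℝ) < H := by exact_mod_cast hH0
  obtain ⟨κ, hκ⟩ : ∃ κ : ℝ, κ = 1 / (32 * H * (N₀ : ℝ) ^ 4) := ⟨_, rfl⟩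
  have hκ0 : 0 < κ := by rw [hκ]; positivity
  obtain ⟨W₁, hlog⟩ := log_small hs0 hκ0
  refine ⟨1 / (16 * H * (N₀ : ℝ) ^ 4), by positivity, 16 * m * s ^ 4,
    W₁ + 2 + 4 * N₀ ^ 2 + 2 * R ^ 2 * m + 2 * H + 2 * N₀ ^ 2 * H, ?_, fun W hW => ?_⟩
  · have : 0 < 16 * m * s ^ 4 := by positivity
    omega
  have hW1 : W₁ ≤ W := by omega
  have hW2 : 2 ≤ W := by omega
  have hW3 : 4 * N₀ ^ 2 ≤ W := by omega
  have hW4 : 2 * R ^ 2 * m ≤ W := by omega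
  have hW5 : 2 * H ≤ W := by omega
  have hW6 : 2 * N₀ ^ 2 * H ≤ W := by omega
  have hWW : W ≤ W ^ 2 := by nlinarith
  obtain ⟨Y, hY⟩ : ∃ Y : ℕ, Y = W ^ 2 / H := ⟨_, rfl⟩
  have hHY : H * Y ≤ W ^ 2 := by rw [hY]; exact Nat.mul_div_le _ _
  have hYN : 2 * N₀ ^ 2 ≤ Y := by
    rw [hY, Nat.le_div_iff_mul_le hH0]
    omega
  have hYle : Y ≤ W ^ 2 := by rw [hY]; exact Nat.div_le_self _ _
  have hsY : 1 + s * Y ≤ W ^ 2 := by
    have h1 : 2 * (s * Y) ≤ H * Y := by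
      rw [hH]
      have : 1 ≤ m * R ^ 2 := Nat.mul_pos hm0 (by positivity)
      calc 2 * (s * Y) = 1 * (2 * (s * Y)) := by ring
        _ ≤ (m * R ^ 2) * (2 * (s * Y)) := Nat.mul_le_mul_right _ this
        _ = _ := by ring
    nlinarith
  have hposY : m * (1 + s * Y) * R ^ 2 ≤ W ^ 2 := by
    have h1 : 2 * (m * (1 + s * Y) * R ^ 2) = 2 * R ^ 2 * m + H * Y := by rw [hH]; ring
    nlinarith
  have hpos : ∀ y w : ℕ, y ≤ Y → W < R * w → s ^ 2 * m * (1 + s * y) < (1 + s * w) ^ 2 := by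
    intro y w hy hw
    have h1 : m * (1 + s * y) ≤ m * (1 + s * Y) := by gcongr
    have h3 : m * (1 + s * y) * R ^ 2 < w ^ 2 * R ^ 2 := by
      have h4 : W ^ 2 < (R * w) ^ 2 := Nat.pow_lt_pow_left hw two_ne_zero
      have h5 : m * (1 + s * y) * R ^ 2 ≤ m * (1 + s * Y) * R ^ 2 := Nat.mul_le_mul_right _ h1
      have h6 : (R * w) ^ 2 = w ^ 2 * R ^ 2 := by ring
      omega
    have h4 : m * (1 + s * y) < w ^ 2 := Nat.lt_of_mul_lt_mul_right h3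
    calc s ^ 2 * m * (1 + s * y) = s ^ 2 * (m * (1 + s * y)) := by ring
      _ < s ^ 2 * w ^ 2 := Nat.mul_lt_mul_of_pos_left h4 (by positivity)
      _ ≤ (1 + s * w) ^ 2 := by nlinarith
  have hWr : (0 : ℝ) < W := by exact_mod_cast (by omega : 0 < W)
  have hYr : (0 : ℝ) ≤ Y := by positivity
  -- good pairs
  obtain ⟨G₁, hG₁⟩ : ∃ G₁ : Finset ℕ, G₁ = (Icc 1 Y).filter
    (fun y : ℕ => ∀ k, NearInt (ε / 3) ((R₁ k).eval (y : ℝ) - (R₁ k).eval 0)) := ⟨_, rfl⟩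
  obtain ⟨G₂, hG₂⟩ : ∃ G₂ : ℕ → Finset ℕ, G₂ = fun y : ℕ => (Icc 1 W).filter
    (fun w : ℕ => ∀ k, NearInt (ε / 3) ((R₂ y k).eval (w : ℝ) - (R₂ y k).eval 0)) := ⟨_, rfl⟩
  have hG₁c := hrec R₁ hR₁deg G₁ Y (fun y h1 h2 h3 => by
    rw [hG₁, mem_filter, mem_Icc]
    exact ⟨⟨h1, h2⟩, h3⟩)
  have hG₂c : ∀ y, W / N₀ ≤ (G₂ y).card * N₀ := fun y => hrec (R₂ y) (hR₂deg y) (G₂ y) W (fun w h1 h2 h3 => by
    rw [hG₂, mem_filter, mem_Icc]
    exact ⟨⟨h1, h2⟩, h3⟩)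
  obtain ⟨G, hG⟩ : ∃ G : Finset (ℕ × ℕ), G = (G₁ ×ˢ Icc 1 W).filter (fun v => v.2 ∈ G₂ v.1 ∧ W < R * v.2) := ⟨_, rfl⟩
  have hGmem : ∀ v ∈ G, v.1 ∈ G₁ ∧ 1 ≤ v.2 ∧ v.2 ≤ W ∧ v.2 ∈ G₂ v.1 ∧ W < R * v.2 := by
    intro v hv
    rw [hG, mem_filter, mem_product, mem_Icc] at hv
    exact ⟨hv.1.1, hv.1.2.1, hv.1.2.2, hv.2.1, hv.2.2⟩
  have hfib : ∀ y ∈ G₁, (W : ℝ) / (2 * (N₀ : ℝ) ^ 2) ≤ ((G.filter (fun v => v.1 = y)).card : ℝ) := by
    intro y hy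
    have h1 := real_bound hN₀ (hG₂c y)
    have h3 : G₂ y ⊆ (G.filter (fun v => v.1 = y)).image Prod.snd ∪ (Icc 1 (W / R)) := by
      intro w hw
      rw [mem_union]
      have hw' : 1 ≤ w ∧ w ≤ W := by
        have := hw
        rw [hG₂, mem_filter, mem_Icc] at this
        exact this.1
      rcases Nat.lt_or_ge W (R * w) with h4 | h4
      · left
        rw [mem_image]
        refine ⟨(y, w), ?_, rfl⟩
        rw [mem_filter, hG, mem_filter, mem_product, mem_Icc]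
        exact ⟨⟨⟨hy, hw'⟩, hw, h4⟩, rfl⟩
      · right
        rw [mem_Icc]
        refine ⟨hw'.1, ?_⟩
        rw [Nat.le_div_iff_mul_le hR0]
        calc w * R = R * w := by ring
          _ ≤ W := h4
    have h4 : (G₂ y).card ≤ ((G.filter (fun v => v.1 = y)).image Prod.snd).card + (W / R) := by
      refine ((card_le_card h3).trans (card_union_le _ _)).trans ?_
      rw [Nat.card_Icc]
      exact le_of_eq (by rw [Nat.add_sub_cancel])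
    have h5 : ((G.filter (fun v => v.1 = y)).image Prod.snd).card ≤ (G.filter (fun v => v.1 = y)).card := card_image_le
    have h6 : (G₂ y).card ≤ (G.filter (fun v => v.1 = y)).card + W / R := by omega
    have h7 : ((G₂ y).card : ℝ) ≤ ((G.filter (fun v => v.1 = y)).card : ℝ) + ((W / R : ℕ) : ℝ) := by exact_mod_cast h6
    have h8 : ((W / R : ℕ) : ℝ) ≤ (W : ℝ) / (4 * (N₀ : ℝ) ^ 2) := by
      have h9 : ((W / R : ℕ) : ℝ) ≤ (W : ℝ) / (R : ℝ) := Nat.cast_div_le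
      rw [hR] at h9
      push_cast at h9
      rw [hR]
      exact h9
    have h9 : (1 : ℝ) ≤ (W : ℝ) / (4 * (N₀ : ℝ) ^ 2) := by
      rw [le_div_iff₀ (by positivity), one_mul]
      exact_mod_cast hW3
    have e1 : (W : ℝ) / (2 * (N₀ : ℝ) ^ 2) = (W : ℝ) / (N₀ : ℝ) ^ 2 - W / (4 * (N₀ : ℝ) ^ 2) - W / (4 * (N₀ : ℝ) ^ 2) := by
      field_simp
      ring
    rw [e1]
    linarith
  have hG₁r : (Y : ℝ) / (2 * (N₀ : ℝ) ^ 2) ≤ G₁.card := by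
    have h1 := real_bound hN₀ hG₁c
    have h2 : (1 : ℝ) ≤ (Y : ℝ) / (2 * (N₀ : ℝ) ^ 2) := by
      rw [le_div_iff₀ (by positivity), one_mul]
      exact_mod_cast hYN
    have e1 : (Y : ℝ) / (2 * (N₀ : ℝ) ^ 2) = (Y : ℝ) / (N₀ : ℝ) ^ 2 - Y / (2 * (N₀ : ℝ) ^ 2) := by
      field_simp
      ring
    rw [e1]
    linarith
  have hGr : (Y : ℝ) * W / (4 * (N₀ : ℝ) ^ 4) ≤ G.card := by
    have h1 : G.card = ∑ y ∈ G₁, (G.filter (fun v => v.1 = y)).card :=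
      card_eq_sum_card_fiberwise fun v hv => (hGmem v hv).1
    rw [h1]
    push_cast
    calc (Y : ℝ) * W / (4 * (N₀ : ℝ) ^ 4) = (Y : ℝ) / (2 * (N₀ : ℝ) ^ 2) * ((W : ℝ) / (2 * (N₀ : ℝ) ^ 2)) := by
          field_simp
          ring
      _ ≤ G₁.card * ((W : ℝ) / (2 * (N₀ : ℝ) ^ 2)) := by gcongr
      _ = ∑ y ∈ G₁, (W : ℝ) / (2 * (N₀ : ℝ) ^ 2) := by rw [sum_const, nsmul_eq_mul]
      _ ≤ _ := sum_le_sum hfib
  -- bad pairs
  obtain ⟨T, hT⟩ : ∃ T : Finset (ℕ × ℕ), T = G.filter (fun v => ¬ Squarefree (val2 m s v.1 v.2)) := ⟨_, rfl⟩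
  have hG₁mem : ∀ y ∈ G₁, 1 ≤ y ∧ y ≤ Y := by
    intro y hy
    rw [hG₁, mem_filter, mem_Icc] at hy
    exact hy.1
  have hTc := sieve2 hm hs0 h2 hms hz1 hzs (by omega) hsY T (fun v hv => by
    rw [hT, mem_filter] at hv
    obtain ⟨h1, h2, h3, h4, h5⟩ := hGmem v hv.1
    exact ⟨(hG₁mem _ h1).2, h2, h3, hpos _ _ (hG₁mem _ h1).2 h5, hv.2⟩)
  have hTr : (T.card : ℝ) ≤ (Y : ℝ) * W / (8 * (N₀ : ℝ) ^ 4) := by
    have e1 : (4 : ℝ) * (W * Y) / z = Y * W / (16 * (N₀ : ℝ) ^ 4) := by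
      rw [hz]
      push_cast
      field_simp
      ring
    rw [e1] at hTc
    have hl := hlog W hW1
    have hl0 : 0 ≤ 1 + Real.log ((4 * s * W : ℕ) : ℝ) := by
      have : 0 ≤ Real.log ((4 * s * W : ℕ) : ℝ) := Real.log_natCast_nonneg _
      linarith
    have h1 : (Y : ℝ) + W ≤ 2 * (W : ℝ) ^ 2 := by
      have : Y + W ≤ 2 * W ^ 2 := by omega
      exact_mod_cast this
    have h2 : ((3 : ℝ) * W + 1) * ((4 * s * W : ℕ) : ℝ) ≤ 16 * s * (W : ℝ) ^ 2 := by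
      have : (3 * W + 1) * (4 * s * W) ≤ 16 * s * W ^ 2 := by
        calc (3 * W + 1) * (4 * s * W) ≤ (4 * W) * (4 * s * W) := Nat.mul_le_mul_right _ (by omega)
          _ = _ := by ring
      exact_mod_cast this
    have h3 : ((Y : ℝ) + W) * (1 + Real.log ((4 * s * W : ℕ) : ℝ)) + (3 * W + 1) * ((4 * s * W : ℕ) : ℝ) ≤ κ * (W : ℝ) ^ 3 := by
      calc ((Y : ℝ) + W) * (1 + Real.log ((4 * s * W : ℕ) : ℝ)) + (3 * W + 1) * ((4 * s * W : ℕ) : ℝ) ≤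
            2 * (W : ℝ) ^ 2 * (1 + Real.log ((4 * s * W : ℕ) : ℝ)) + 16 * s * (W : ℝ) ^ 2 := by gcongr
        _ = (W : ℝ) ^ 2 * (2 * (1 + Real.log ((4 * s * W : ℕ) : ℝ)) + 16 * s) := by ring
        _ ≤ (W : ℝ) ^ 2 * (κ * W) := by gcongr
        _ = _ := by ring
    have h4 : (W : ℝ) ^ 2 ≤ 2 * H * Y := by
      have h5 := Nat.lt_div_mul_add (a := W ^ 2) hH0
      rw [← hY] at h5
      have h6 : W ^ 2 ≤ 2 * H * Y := by nlinarith
      exact_mod_cast h6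
    have h5 : κ * (W : ℝ) ^ 3 ≤ Y * W / (16 * (N₀ : ℝ) ^ 4) := by
      calc κ * (W : ℝ) ^ 3 = κ * W * (W : ℝ) ^ 2 := by ring
        _ ≤ κ * W * (2 * H * Y) := by gcongr
        _ = _ := by
          rw [hκ]
          field_simp
          ring
    have e2 : (Y : ℝ) * W / (8 * (N₀ : ℝ) ^ 4) = Y * W / (16 * (N₀ : ℝ) ^ 4) + Y * W / (16 * (N₀ : ℝ) ^ 4) := by
      field_simp
      ring
    rw [e2]
    linarith
  -- the numbers
  obtain ⟨f, hf⟩ : ∃ f : ℕ × ℕ → ℕ, f = fun v => val2 m s v.1 v.2 := ⟨_, rfl⟩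
  refine ⟨(G \ T).image f, fun τ hτ => ?_, ?_⟩
  · have hcard := card_le_mul_card_image (f := f) (G \ T) τ (fun n hn => by
      refine le_trans ?_ (hτ n hn)
      apply card_le_card_of_injOn (fun v => 1 + s * v.1)
      · intro v hv
        rw [Finset.mem_coe, mem_filter] at hv
        obtain ⟨hv1, rfl⟩ := hv
        obtain ⟨hvG, hvT⟩ := mem_sdiff.1 hv1
        have hsq : Squarefree (val2 m s v.1 v.2) := by
          by_contra h
          exact hvT (by rw [hT, mem_filter]; exact ⟨hvG, h⟩)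
        rw [Finset.mem_coe, Nat.mem_divisors, hf]
        refine ⟨?_, hsq.ne_zero⟩
        unfold val2
        exact (dvd_mul_right _ _).mul_left _
      · intro v hv v' hv' hvv
        rw [Finset.mem_coe, mem_filter] at hv hv'
        obtain ⟨h1, h2, h3, h4, h5⟩ := hGmem v (mem_sdiff.1 hv.1).1
        obtain ⟨h1', h2', h3', h4', h5'⟩ := hGmem v' (mem_sdiff.1 hv'.1).1
        have h6 : v.1 = v'.1 := by
          have h7 : 1 + s * v.1 = 1 + s * v'.1 := hvv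
          have h8 : s * v.1 = s * v'.1 := by omega
          exact Nat.eq_of_mul_eq_mul_left hs0 h8
        have h7 : val2 m s v.1 v.2 = val2 m s v'.1 v'.2 := by
          have := hv.2.trans hv'.2.symm
          rw [hf] at this
          exact this
        rw [← h6] at h7
        have h8 := val2_inj hm0 hs0 (hpos _ _ (hG₁mem _ h1).2 h5) (hpos _ _ (hG₁mem _ h1).2 h5') h7
        exact Prod.ext h6 h8)
    have h1 : G.card ≤ (G \ T).card + T.card := by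
      have := card_le_card_sdiff_add_card (s := G) (t := T)
      omega
    have h1' : (G.card : ℝ) ≤ (G \ T).card + T.card := by exact_mod_cast h1
    have hcard' : ((G \ T).card : ℝ) ≤ τ * (((G \ T).image f).card : ℝ) := by exact_mod_cast hcard
    refine le_trans ?_ hcard'
    have h4 : (W : ℝ) ^ 2 ≤ 2 * H * Y := by
      have h5 := Nat.lt_div_mul_add (a := W ^ 2) hH0
      rw [← hY] at h5
      have h6 : W ^ 2 ≤ 2 * H * Y := by nlinarith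
      exact_mod_cast h6
    have h5 : 1 / (16 * H * (N₀ : ℝ) ^ 4) * (W : ℝ) ^ 3 ≤ Y * W / (8 * (N₀ : ℝ) ^ 4) := by
      calc 1 / (16 * H * (N₀ : ℝ) ^ 4) * (W : ℝ) ^ 3 = 1 / (16 * H * (N₀ : ℝ) ^ 4) * W * (W : ℝ) ^ 2 := by ring
        _ ≤ 1 / (16 * H * (N₀ : ℝ) ^ 4) * W * (2 * H * Y) := by gcongr
        _ = _ := by
          field_simp
          ring
    have e2 : (Y : ℝ) * W / (4 * (N₀ : ℝ) ^ 4) = Y * W / (8 * (N₀ : ℝ) ^ 4) + Y * W / (8 * (N₀ : ℝ) ^ 4) := by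
      field_simp
      ring
    linarith
  · intro n hn
    obtain ⟨v, hv, rfl⟩ := mem_image.1 hn
    obtain ⟨hvG, hvT⟩ := mem_sdiff.1 hv
    obtain ⟨h1, h2', h3, h4, h5⟩ := hGmem v hvG
    have hp := hpos _ _ (hG₁mem _ h1).2 h5
    have hsq : Squarefree (val2 m s v.1 v.2) := by
      by_contra h
      exact hvT (by rw [hT, mem_filter]; exact ⟨hvG, h⟩)
    rw [hf]
    refine ⟨?_, hsq, val2_congruent hm0 hs0 h2 hp, ⟨_, rfl, val2_mod hp hMs⟩, ?_, fun k => ?_⟩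
    · apply val2_le hs0 (by omega) _ h3
      have : s * v.1 ≤ s * Y := Nat.mul_le_mul_left _ (hG₁mem _ h1).2
      omega
    · have h6 := (val2_mod hp h8).mul_left m
      rw [mul_one] at h6
      exact h6
    · have h6 : NearInt (ε / 3) ((R₁ k).eval ((v.1 : ℕ) : ℝ) - (R₁ k).eval 0) := by
        rw [hG₁, mem_filter] at h1
        exact h1.2 k
      have h7 : NearInt (ε / 3) ((R₂ v.1 k).eval ((v.2 : ℕ) : ℝ) - (R₂ v.1 k).eval 0) := by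
        rw [hG₂, mem_filter] at h4
        exact h4.2 k
      rw [hR₂zero, hR₂eval k v.1 v.2 hp] at h7
      have h8 := (h7.add h6).add (hR₁zero k)
      have e1 : (P k).eval ((val2 m s v.1 v.2 : ℕ) : ℝ) - (R₁ k).eval ((v.1 : ℕ) : ℝ) +
          ((R₁ k).eval ((v.1 : ℕ) : ℝ) - (R₁ k).eval 0) + ((R₁ k).eval 0 - (P k).eval (m : ℝ)) =
        (P k).eval ((val2 m s v.1 v.2 : ℕ) : ℝ) - (P k).eval (m : ℝ) := by ring
      rw [e1] at h8
      exact h8.mono (by linarith)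

end Pool.Agent.N650.PB
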