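import Mathlib

/-!
# Uniform recurrence of polynomial phases

For all `D`, `ε > 0` and every finite family of real polynomials `Q_k` of degree at most `D` there is `1 ≤ a ≤ N₀` such that all
`Q_k(a) - Q_k(0)` are within `ε` of integers, `N₀` depending only on the number of the polynomials, `D` and `ε`. So the natural
numbers with this property have lower density at least `1 / N₀ ^ 2`, uniformly in the coefficients.
-/

set_option autoImplicit false

namespace Pool.Agent.N650.PB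

open Finset

/-- the distance of `x` to the nearest integer is at most `ε` -/
def NearInt (ε x : ℝ) : Prop := ∃ p : ℤ, |x - p| ≤ ε

lemma NearInt.mono {ε δ x : ℝ} (hx : NearInt ε x) (h : ε ≤ δ) : NearInt δ x := by
  obtain ⟨p, hp⟩ := hx
  exact ⟨p, hp.trans h⟩

lemma NearInt.add {ε δ x y : ℝ} (hx : NearInt ε x) (hy : NearInt δ y) : NearInt (ε + δ) (x + y) := by
  obtain ⟨p, hp⟩ := hx
  obtain ⟨q, hq⟩ := hy
  refine ⟨p + q, ?_⟩
  have e : x + y - ((p + q : ℤ) : ℝ) = (x - p) + (y - q) := by push_cast; ring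
  rw [e]
  exact (abs_add_le _ _).trans (add_le_add hp hq)

lemma NearInt.zmul {ε x : ℝ} (n : ℤ) (hx : NearInt ε x) : NearInt (|(n : ℝ)| * ε) (n * x) := by
  obtain ⟨p, hp⟩ := hx
  refine ⟨n * p, ?_⟩
  have e : (n : ℝ) * x - ((n * p : ℤ) : ℝ) = n * (x - p) := by push_cast; ring
  rw [e, abs_mul]
  exact mul_le_mul_of_nonneg_left hp (abs_nonneg _)

lemma NearInt.sum {ι : Type*} (s : Finset ι) (e f : ι → ℝ) (h : ∀ i ∈ s, NearInt (e i) (f i)) :
    NearInt (∑ i ∈ s, e i) (∑ i ∈ s, f i) := by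
  classical
  induction s using Finset.induction_on with
  | empty => exact ⟨0, by simp⟩
  | insert a s ha ih =>
    rw [sum_insert ha, sum_insert ha]
    exact (h a (mem_insert_self _ _)).add (ih fun i hi => h i (mem_insert_of_mem hi))

/-- the theorem of van der Waerden with a bound for the difference -/
lemma vdw (κ : Type) [Finite κ] (D : ℕ) : ∃ N₀ : ℕ, ∀ C : ℕ → κ, ∃ a b : ℕ, 1 ≤ a ∧ a ≤ N₀ ∧
    ∀ t : ℕ, t ≤ D → C (b + a * t) = C b := by
  classical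
  obtain ⟨ι, _, h⟩ := Combinatorics.Line.exists_mono_in_high_dimension (Fin (D + 1)) κ
  refine ⟨Fintype.card ι, fun C => ?_⟩
  obtain ⟨l, c, hl⟩ := h fun v => C (∑ i, (v i : ℕ))
  have key : ∀ x : Fin (D + 1), ∑ i, ((l x i : Fin (D + 1)) : ℕ) =
      (∑ i, ((l.idxFun i).elim 0 (fun y => (y : ℕ)))) + (univ.filter (fun i => l.idxFun i = none)).card * x := by
    intro x
    rw [card_eq_sum_ones, sum_filter, sum_mul, ← sum_add_distrib]
    refine sum_congr rfl fun i _ => ?_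
    rw [Combinatorics.Line.coe_apply]
    cases h : l.idxFun i <;> simp
  refine ⟨(univ.filter (fun i => l.idxFun i = none)).card, ∑ i, ((l.idxFun i).elim 0 (fun y => (y : ℕ))), ?_, ?_, ?_⟩
  · obtain ⟨i, hi⟩ := l.proper
    exact card_pos.2 ⟨i, by simp [hi]⟩
  · exact card_le_univ _
  · intro t ht
    have h1 := hl ⟨t, by omega⟩
    have h0 := hl ⟨0, by omega⟩
    simp only [key] at h1 h0
    rw [h1]
    simpa using h0.symm

lemma cell {q : ℕ} (hq : 0 < q) {x y : ℝ} (h : ⌊(q : ℝ) * Int.fract x⌋ = ⌊(q : ℝ) * Int.fract y⌋) :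
    NearInt (1 / q) (x - y) := by
  have hq' : (0 : ℝ) < q := by exact_mod_cast hq
  refine ⟨⌊x⌋ - ⌊y⌋, ?_⟩
  have e : x - y - ((⌊x⌋ - ⌊y⌋ : ℤ) : ℝ) = Int.fract x - Int.fract y := by
    unfold Int.fract
    push_cast
    ring
  rw [e]
  have h1 := Int.abs_sub_lt_one_of_floor_eq_floor h
  rw [← mul_sub, abs_mul, abs_of_pos hq'] at h1
  rw [le_div_iff₀ hq']
  linarith

/-- the alternating sum of the values of a monomial on an arithmetic progression -/
lemma alt_sum (j a b : ℕ) (ha : 1 ≤ a) :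
    ∑ k ∈ range (j + 1), (((-1 : ℤ) ^ (j - k) * j.choose k : ℤ) : ℝ) * ((b + a * k : ℕ) : ℝ) ^ j =
      (a : ℝ) ^ j * (j.factorial : ℝ) := by
  have ha' : (a : ℝ) ≠ 0 := by
    have : (1 : ℝ) ≤ a := by exact_mod_cast ha
    linarith
  have h := congrFun (fwdDiff_iter_eq_factorial (R := ℝ) (n := j)) ((b : ℝ) / a)
  rw [fwdDiff_iter_eq_sum_shift] at h
  simp only [zsmul_eq_mul, nsmul_eq_mul, mul_one] at h
  have h2 : ((j.factorial : ℕ) : ℝ → ℝ) ((b : ℝ) / a) = (j.factorial : ℝ) := by simp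
  rw [h2] at h
  rw [← h, mul_sum]
  refine sum_congr rfl fun k _ => ?_
  have e : ((b + a * k : ℕ) : ℝ) = a * ((b : ℝ) / a + k) := by
    push_cast
    field_simp
  rw [e, mul_pow]
  ring

/-- simultaneous recurrence for monomials of degree at most `D`, uniformly in the coefficients -/
lemma rec_mono (K : Type) [Finite K] (D : ℕ) {ε : ℝ} (hε : 0 < ε) : ∃ N₀ : ℕ, ∀ β : K → ℕ → ℝ,
    ∃ a : ℕ, 1 ≤ a ∧ a ≤ N₀ ∧ ∀ (k : K) (j : ℕ), 1 ≤ j → j ≤ D → NearInt ε (β k j * (a : ℝ) ^ j) := by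
  classical
  obtain ⟨q, hq⟩ := exists_nat_gt ((2 : ℝ) ^ D / ε)
  have hq0 : (0 : ℝ) < q := lt_trans (by positivity) hq
  have hq0' : 0 < q := by exact_mod_cast hq0
  obtain ⟨N₀, hN⟩ := vdw (K × Fin (D + 1) → Fin (q + 1)) D
  refine ⟨N₀, fun β => ?_⟩
  have hcell : ∀ x : ℝ, 0 ≤ ⌊(q : ℝ) * Int.fract x⌋ ∧ ⌊(q : ℝ) * Int.fract x⌋ ≤ q := by
    intro x
    refine ⟨Int.floor_nonneg.2 (mul_nonneg hq0.le (Int.fract_nonneg x)), ?_⟩
    have h1 : ((⌊(q : ℝ) * Int.fract x⌋ : ℤ) : ℝ) ≤ ((q : ℤ) : ℝ) := by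
      refine (Int.floor_le _).trans ?_
      have := (Int.fract_lt_one x).le
      push_cast
      nlinarith
    exact_mod_cast h1
  obtain ⟨a, b, ha, haN, hab⟩ := hN fun n p =>
    ⟨(⌊(q : ℝ) * Int.fract (β p.1 p.2 / ((p.2 : ℕ).factorial : ℝ) * (n : ℝ) ^ (p.2 : ℕ))⌋).toNat, by
      have h1 := hcell (β p.1 p.2 / ((p.2 : ℕ).factorial : ℝ) * (n : ℝ) ^ (p.2 : ℕ))
      omega⟩
  refine ⟨a, ha, haN, fun k j hj1 hjD => ?_⟩
  have hnear : ∀ t : ℕ, t ≤ D → NearInt (1 / q) (β k j / (j.factorial : ℝ) * ((b + a * t : ℕ) : ℝ) ^ j -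
      β k j / (j.factorial : ℝ) * (b : ℝ) ^ j) := by
    intro t ht
    apply cell hq0'
    have h1 := congrFun (hab t ht) (k, ⟨j, by omega⟩)
    simp only [Fin.mk.injEq] at h1
    have h2 := hcell (β k j / (j.factorial : ℝ) * ((b + a * t : ℕ) : ℝ) ^ j)
    have h3 := hcell (β k j / (j.factorial : ℝ) * ((b : ℕ) : ℝ) ^ j)
    omega
  have hf : (j.factorial : ℝ) ≠ 0 := by exact_mod_cast j.factorial_ne_zero
  have hsum : β k j * (a : ℝ) ^ j = ∑ t ∈ range (j + 1), (((-1 : ℤ) ^ (j - t) * j.choose t : ℤ) : ℝ) *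
      (β k j / (j.factorial : ℝ) * ((b + a * t : ℕ) : ℝ) ^ j - β k j / (j.factorial : ℝ) * (b : ℝ) ^ j) := by
    have h1 := alt_sum j a b ha
    have h2 : ∑ t ∈ range (j + 1), (((-1 : ℤ) ^ (j - t) * j.choose t : ℤ) : ℝ) = 0 := by
      have h3 := (add_pow (1 : ℝ) (-1) j).symm
      have h4 : (1 + (-1 : ℝ)) ^ j = 0 := by
        rw [show (1 : ℝ) + -1 = 0 by norm_num]
        exact zero_pow (by omega)
      rw [h4] at h3
      rw [← h3]
      refine sum_congr rfl fun t _ => ?_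
      push_cast
      ring
    simp only [mul_sub]
    rw [sum_sub_distrib, ← sum_mul, h2, zero_mul, sub_zero]
    have h5 : ∀ t : ℕ, (((-1 : ℤ) ^ (j - t) * j.choose t : ℤ) : ℝ) *
        (β k j / (j.factorial : ℝ) * ((b + a * t : ℕ) : ℝ) ^ j) =
        β k j / (j.factorial : ℝ) * ((((-1 : ℤ) ^ (j - t) * j.choose t : ℤ) : ℝ) * ((b + a * t : ℕ) : ℝ) ^ j) := by
      intro t
      ring
    simp only [h5]
    rw [← mul_sum, h1]
    field_simp
  rw [hsum]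
  refine (NearInt.sum (range (j + 1)) (fun t => |(((-1 : ℤ) ^ (j - t) * j.choose t : ℤ) : ℝ)| * (1 / q)) _
    (fun t ht => (hnear t (by have := mem_range.1 ht; omega)).zmul _)).mono ?_
  rw [← sum_mul]
  have h6 : ∑ t ∈ range (j + 1), |(((-1 : ℤ) ^ (j - t) * j.choose t : ℤ) : ℝ)| = 2 ^ j := by
    have h7 : ∀ t : ℕ, |(((-1 : ℤ) ^ (j - t) * j.choose t : ℤ) : ℝ)| = ((j.choose t : ℕ) : ℝ) := by
      intro t
      push_cast
      rw [abs_mul, abs_pow, abs_neg, abs_one, one_pow, one_mul, Nat.abs_cast]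
    simp only [h7]
    have h8 := Nat.sum_range_choose j
    exact_mod_cast h8
  rw [h6]
  have h9 : (2 : ℝ) ^ j ≤ 2 ^ D := pow_le_pow_right₀ (by norm_num) hjD
  rw [mul_one_div, div_le_iff₀ hq0]
  rw [div_lt_iff₀ hε] at hq
  linarith

open Polynomial in
/-- simultaneous recurrence for polynomials of degree at most `D`, uniformly in the coefficients -/
theorem rec_poly (K : Type) [Finite K] (D : ℕ) {ε : ℝ} (hε : 0 < ε) : ∃ N₀ : ℕ, ∀ Q : K → ℝ[X],
    (∀ k, (Q k).natDegree ≤ D) → ∃ a : ℕ, 1 ≤ a ∧ a ≤ N₀ ∧ ∀ k, NearInt ε ((Q k).eval (a : ℝ) - (Q k).eval 0) := by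
  obtain ⟨N₀, h⟩ := rec_mono K D (ε := ε / (D + 1)) (by positivity)
  refine ⟨N₀, fun Q hQ => ?_⟩
  obtain ⟨a, ha, haN, hk⟩ := h fun k j => (Q k).coeff j
  refine ⟨a, ha, haN, fun k => ?_⟩
  have h1 : (Q k).eval (a : ℝ) - (Q k).eval 0 = ∑ j ∈ range D, (Q k).coeff (j + 1) * (a : ℝ) ^ (j + 1) := by
    rw [eval_eq_sum_range' (n := D + 1) (by have := hQ k; omega), sum_range_succ', ← coeff_zero_eq_eval_zero]
    simp
  rw [h1]
  refine (NearInt.sum (range D) (fun _ => ε / (D + 1)) _ (fun j hj => hk k (j + 1) (by omega)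
    (by have := mem_range.1 hj; omega))).mono ?_
  rw [sum_const, card_range, nsmul_eq_mul]
  have hD : (0 : ℝ) ≤ D := Nat.cast_nonneg D
  rw [mul_div_assoc', div_le_iff₀ (by positivity)]
  nlinarith

open Polynomial in
/-- the density of the return times is bounded below, uniformly in the coefficients -/
theorem rec_density (K : Type) [Finite K] (D : ℕ) {ε : ℝ} (hε : 0 < ε) : ∃ N₀ : ℕ, 1 ≤ N₀ ∧ ∀ Q : K → ℝ[X],
    (∀ k, (Q k).natDegree ≤ D) → ∀ G : Finset ℕ, ∀ Y : ℕ,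
    (∀ y : ℕ, 1 ≤ y → y ≤ Y → (∀ k, NearInt ε ((Q k).eval (y : ℝ) - (Q k).eval 0)) → y ∈ G) →
    Y / N₀ ≤ G.card * N₀ := by
  classical
  obtain ⟨N₁, h⟩ := rec_poly K D hε
  refine ⟨max N₁ 1, le_max_right _ _, fun Q hQ G Y hG => ?_⟩
  obtain ⟨N₀, hN₀⟩ : ∃ N₀ : ℕ, N₀ = max N₁ 1 := ⟨_, rfl⟩
  rw [← hN₀]
  have hN1 : N₁ ≤ N₀ := by rw [hN₀]; exact le_max_left _ _
  have hpos : 0 < N₀ := by rw [hN₀]; exact lt_of_lt_of_le one_pos (le_max_right _ _)
  have hscale : ∀ t : ℕ, ∃ a : ℕ, 1 ≤ a ∧ a ≤ N₀ ∧ ∀ k, NearInt ε ((Q k).eval ((t * a : ℕ) : ℝ) - (Q k).eval 0) := by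
    intro t
    obtain ⟨a, ha, haN, hk⟩ := h (fun k => (Q k).comp (C (t : ℝ) * X)) (fun k => by
      refine natDegree_comp_le.trans ?_
      have h1 : (C (t : ℝ) * X).natDegree ≤ 1 := (natDegree_C_mul_le _ _).trans natDegree_X_le
      calc (Q k).natDegree * (C (t : ℝ) * X).natDegree ≤ (Q k).natDegree * 1 := Nat.mul_le_mul_left _ h1
        _ ≤ D := by rw [mul_one]; exact hQ k)
    refine ⟨a, ha, haN.trans hN1, fun k => ?_⟩
    have h2 := hk k
    simp only [eval_comp, eval_mul, eval_C, eval_X, mul_zero] at h2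
    push_cast
    exact h2
  choose f hf1 hf2 hf3 using hscale
  have hmaps : ∀ t ∈ Icc 1 (Y / N₀), ((t * f t, f t) : ℕ × ℕ) ∈ G ×ˢ Icc 1 N₀ := by
    intro t ht
    rw [mem_Icc] at ht
    rw [mem_product, mem_Icc]
    refine ⟨hG _ ?_ ?_ (hf3 t), hf1 t, hf2 t⟩
    · exact Nat.mul_pos (by omega) (hf1 t)
    · calc t * f t ≤ (Y / N₀) * N₀ := Nat.mul_le_mul ht.2 (hf2 t)
        _ ≤ Y := Nat.div_mul_le_self _ _
  have hinj : Set.InjOn (fun t => ((t * f t, f t) : ℕ × ℕ)) (Icc 1 (Y / N₀) : Finset ℕ) := by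
    intro t _ u _ htu
    simp only [Prod.mk.injEq] at htu
    obtain ⟨h1, h2⟩ := htu
    rw [h2] at h1
    exact Nat.eq_of_mul_eq_mul_right (hf1 u) h1
  have h3 := card_le_card_of_injOn _ hmaps hinj
  rw [card_product, Nat.card_Icc, Nat.card_Icc] at h3
  simpa using h3

end Pool.Agent.N650.PB
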