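import Pool.Agent.N650.PB.Rec

/-!
# Squarefree values of `m (x ^ 4 - s ^ 4 m ^ 2)`, `x = 1 + s ^ 2 y`
-/

set_option autoImplicit false

namespace Pool.Agent.N650.PB

open Finset

/-- numbers up to `Y` in one residue class -/
lemma card_class {q Y : ℕ} (S : Finset ℕ) (hS : ∀ y ∈ S, y ≤ Y)
    (h : ∀ y ∈ S, ∀ y' ∈ S, (q : ℤ) ∣ (y : ℤ) - y') : S.card ≤ Y / q + 1 := by
  have hmaps : ∀ y ∈ S, y / q ∈ range (Y / q + 1) := by
    intro y hy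
    rw [mem_range]
    exact Nat.lt_succ_of_le (Nat.div_le_div_right (hS y hy))
  have hinj : Set.InjOn (fun y => y / q) (S : Set ℕ) := by
    intro y hy y' hy' hyy
    have h1 := h y hy y' hy'
    have h2 : y % q = y' % q := (Nat.modEq_iff_dvd.2 h1).symm
    simp only at hyy
    rw [← Nat.div_add_mod y q, ← Nat.div_add_mod y' q, hyy, h2]
  have h3 := card_le_card_of_injOn _ hmaps hinj
  rwa [card_range] at h3

/-- the number of the `y ≤ Y` for which `(1 + s ^ 2 y) ^ 2 - e` is divisible by `p ^ 2` -/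
lemma card_roots {p s : ℕ} (hp : p.Prime) (hp2 : ¬ p ∣ 2) (hps : ¬ p ∣ s) {e : ℤ} (he : ¬ (p : ℤ) ∣ e) (Y : ℕ) (S : Finset ℕ)
    (hS : ∀ y ∈ S, y ≤ Y ∧ ((p ^ 2 : ℕ) : ℤ) ∣ (1 + (s : ℤ) ^ 2 * y) ^ 2 - e) : S.card ≤ 2 * (Y / p ^ 2 + 1) := by
  classical
  have P : Prime (p : ℤ) := Nat.prime_iff_prime_int.1 hp
  have hp2' : ¬ (p : ℤ) ∣ 2 := by
    intro h
    exact hp2 (by exact_mod_cast h)
  have hps' : ¬ (p : ℤ) ∣ (s : ℤ) := by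
    intro h
    exact hps (by exact_mod_cast h)
  have hcs : IsCoprime (((p ^ 2 : ℕ) : ℤ)) ((s : ℤ) ^ 2) := by
    push_cast
    exact ((Prime.coprime_iff_not_dvd P).2 hps').pow
  have hpp : (p : ℤ) ∣ ((p ^ 2 : ℕ) : ℤ) := by
    push_cast
    exact dvd_pow_self _ two_ne_zero
  rcases S.eq_empty_or_nonempty with hem | ⟨y₀, hy₀⟩
  · rw [hem, card_empty]
    omega
  have key : ∀ y ∈ S, ((p ^ 2 : ℕ) : ℤ) ∣ (y : ℤ) - y₀ ∨ ((p ^ 2 : ℕ) : ℤ) ∣ 2 + (s : ℤ) ^ 2 * (y + y₀) := by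
    intro y hy
    have h1 := (hS y hy).2
    have h0 := (hS y₀ hy₀).2
    have h2 : ((p ^ 2 : ℕ) : ℤ) ∣ ((s : ℤ) ^ 2 * (y - y₀)) * (2 + (s : ℤ) ^ 2 * (y + y₀)) := by
      have h3 := dvd_sub h1 h0
      have e1 : (1 + (s : ℤ) ^ 2 * y) ^ 2 - e - ((1 + (s : ℤ) ^ 2 * y₀) ^ 2 - e) =
        ((s : ℤ) ^ 2 * (y - y₀)) * (2 + (s : ℤ) ^ 2 * (y + y₀)) := by ring
      rwa [e1] at h3
    by_cases h4 : (p : ℤ) ∣ (s : ℤ) ^ 2 * (y - y₀)
    · have h5 : ¬ (p : ℤ) ∣ 2 + (s : ℤ) ^ 2 * (y + y₀) := by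
        intro h6
        have h7 : (p : ℤ) ∣ 2 * (1 + (s : ℤ) ^ 2 * y) := by
          have h8 := dvd_add h4 h6
          have e1 : (s : ℤ) ^ 2 * (y - y₀) + (2 + (s : ℤ) ^ 2 * (y + y₀)) = 2 * (1 + (s : ℤ) ^ 2 * y) := by ring
          rwa [e1] at h8
        have h8 : (p : ℤ) ∣ 1 + (s : ℤ) ^ 2 * y := (P.dvd_or_dvd h7).resolve_left hp2'
        apply he
        have h9 : (p : ℤ) ∣ (1 + (s : ℤ) ^ 2 * y) ^ 2 := h8.trans (dvd_pow_self _ two_ne_zero)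
        have h10 := dvd_sub h9 (hpp.trans h1)
        have e1 : (1 + (s : ℤ) ^ 2 * y) ^ 2 - ((1 + (s : ℤ) ^ 2 * y) ^ 2 - e) = e := by ring
        rwa [e1] at h10
      left
      have hc : IsCoprime (((p ^ 2 : ℕ) : ℤ)) (2 + (s : ℤ) ^ 2 * (y + y₀)) := by
        push_cast
        exact ((Prime.coprime_iff_not_dvd P).2 h5).pow_left
      exact hcs.dvd_of_dvd_mul_left (hc.dvd_of_dvd_mul_right h2)
    · right
      have hc : IsCoprime (((p ^ 2 : ℕ) : ℤ)) ((s : ℤ) ^ 2 * (y - y₀)) := by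
        push_cast
        exact ((Prime.coprime_iff_not_dvd P).2 h4).pow_left
      exact hc.dvd_of_dvd_mul_left h2
  have h1 : (S.filter fun y : ℕ => ((p ^ 2 : ℕ) : ℤ) ∣ (y : ℤ) - y₀).card ≤ Y / p ^ 2 + 1 := by
    apply card_class
    · intro y hy
      exact (hS y (mem_filter.1 hy).1).1
    · intro y hy y' hy'
      have e1 := dvd_sub (mem_filter.1 hy).2 (mem_filter.1 hy').2
      have e2 : (y : ℤ) - y₀ - (y' - y₀) = y - y' := by ring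
      rwa [e2] at e1
  have h2 : (S.filter fun y : ℕ => ¬ ((p ^ 2 : ℕ) : ℤ) ∣ (y : ℤ) - y₀).card ≤ Y / p ^ 2 + 1 := by
    apply card_class
    · intro y hy
      exact (hS y (mem_filter.1 hy).1).1
    · intro y hy y' hy'
      have f1 := (key y (mem_filter.1 hy).1).resolve_left (mem_filter.1 hy).2
      have f2 := (key y' (mem_filter.1 hy').1).resolve_left (mem_filter.1 hy').2
      have e1 := dvd_sub f1 f2
      have e2 : 2 + (s : ℤ) ^ 2 * (y + y₀) - (2 + (s : ℤ) ^ 2 * (y' + y₀)) = (s : ℤ) ^ 2 * (y - y') := by ring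
      rw [e2] at e1
      exact hcs.dvd_of_dvd_mul_left e1
  have h3 := card_filter_add_card_filter_not (s := S) (fun y : ℕ => ((p ^ 2 : ℕ) : ℤ) ∣ (y : ℤ) - y₀)
  omega

/-- the values of the polynomial -/
def val (m s y : ℕ) : ℕ := m * ((1 + s ^ 2 * y) ^ 4 - s ^ 4 * m ^ 2)

lemma val_bound {m s y : ℕ} (hms : m ≤ s) (hy : 1 ≤ y) : s ^ 2 * m < (1 + s ^ 2 * y) ^ 2 := by
  have h1 : s ^ 2 * 1 ≤ s ^ 2 * y := Nat.mul_le_mul_left _ hy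
  rcases Nat.eq_zero_or_pos s with h0 | h0
  · subst h0
    simp
  · have h2 : m ≤ s ^ 2 := by nlinarith
    calc s ^ 2 * m ≤ s ^ 2 * s ^ 2 := Nat.mul_le_mul_left _ h2
      _ < (1 + s ^ 2 * y) ^ 2 := by nlinarith

lemma val_cast {m s y : ℕ} (hms : m ≤ s) (hy : 1 ≤ y) :
    ((val m s y : ℕ) : ℤ) = m * (1 + (s : ℤ) ^ 2 * y) ^ 4 - (s : ℤ) ^ 4 * (m : ℤ) ^ 3 := by
  have h1 := val_bound hms hy
  have h2 : s ^ 4 * m ^ 2 ≤ (1 + s ^ 2 * y) ^ 4 := by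
    calc s ^ 4 * m ^ 2 = (s ^ 2 * m) ^ 2 := by ring
      _ ≤ ((1 + s ^ 2 * y) ^ 2) ^ 2 := Nat.pow_le_pow_left h1.le 2
      _ = _ := by ring
  unfold val
  push_cast [Nat.cast_sub h2]
  ring

lemma val_factor {m s y : ℕ} (hms : m ≤ s) (hy : 1 ≤ y) :
    ((val m s y : ℕ) : ℤ) = m * (((1 + (s : ℤ) ^ 2 * y) ^ 2 - (s : ℤ) ^ 2 * m) * ((1 + (s : ℤ) ^ 2 * y) ^ 2 + (s : ℤ) ^ 2 * m)) := by
  rw [val_cast hms hy]
  ring

/-- a square dividing a value divides one of the two factors -/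
lemma bad_prime {m s z Y y : ℕ} (hm : Squarefree m) (hs : 0 < s) (h2s : 2 ∣ s) (hms : m ∣ s)
    (hz : ∀ p : ℕ, p.Prime → p ≤ z → p ∣ s) (hy : 1 ≤ y) (hyY : y ≤ Y) (h : ¬ Squarefree (val m s y)) :
    ∃ p : ℕ, p.Prime ∧ z < p ∧ p ≤ 3 * s ^ 2 * Y ∧ ¬ p ∣ s ∧
      (((p ^ 2 : ℕ) : ℤ) ∣ (1 + (s : ℤ) ^ 2 * y) ^ 2 - (s : ℤ) ^ 2 * m ∨
        ((p ^ 2 : ℕ) : ℤ) ∣ (1 + (s : ℤ) ^ 2 * y) ^ 2 - (-((s : ℤ) ^ 2 * m))) := by
  have hmle : m ≤ s := Nat.le_of_dvd hs hms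
  rw [Nat.squarefree_iff_prime_squarefree] at h
  push Not at h
  obtain ⟨p, hp, hpv⟩ := h
  have P : Prime (p : ℤ) := Nat.prime_iff_prime_int.1 hp
  have hpv' : ((p ^ 2 : ℕ) : ℤ) ∣ ((val m s y : ℕ) : ℤ) := by
    rw [sq]
    exact_mod_cast hpv
  have hps : ¬ p ∣ s := by
    intro hps
    have h1 : ((p ^ 2 : ℕ) : ℤ) ∣ (s : ℤ) ^ 2 := by
      have : p ^ 2 ∣ s ^ 2 := pow_dvd_pow_of_dvd hps 2
      exact_mod_cast this
    have h2 : ((p ^ 2 : ℕ) : ℤ) ∣ (m : ℤ) := by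
      rw [val_cast hmle hy] at hpv'
      have e1 : (m : ℤ) = (m * (1 + (s : ℤ) ^ 2 * y) ^ 4 - (s : ℤ) ^ 4 * (m : ℤ) ^ 3) -
          (s : ℤ) ^ 2 * (m * (4 * y + 6 * (s : ℤ) ^ 2 * y ^ 2 + 4 * (s : ℤ) ^ 4 * y ^ 3 + (s : ℤ) ^ 6 * y ^ 4) -
            (s : ℤ) ^ 2 * (m : ℤ) ^ 3) := by ring
      rw [e1]
      exact dvd_sub hpv' (h1.mul_right _)
    have h3 : p ^ 2 ∣ m := by exact_mod_cast h2
    rw [sq] at h3
    exact hp.one_lt.ne' (Nat.isUnit_iff.1 (hm p h3))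
  have hp2 : ¬ (p : ℤ) ∣ 2 := by
    intro h
    have : p ∣ 2 := by exact_mod_cast h
    exact hps (this.trans h2s)
  have hpm : ¬ (p : ℤ) ∣ (m : ℤ) := by
    intro h
    have : p ∣ m := by exact_mod_cast h
    exact hps (this.trans hms)
  have hps' : ¬ (p : ℤ) ∣ (s : ℤ) := by
    intro h
    exact hps (by exact_mod_cast h)
  have hbnd := val_bound hmle hy
  have hA0 : (0 : ℤ) < (1 + (s : ℤ) ^ 2 * y) ^ 2 - (s : ℤ) ^ 2 * m := by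
    have : ((s ^ 2 * m : ℕ) : ℤ) < (((1 + s ^ 2 * y) ^ 2 : ℕ) : ℤ) := by exact_mod_cast hbnd
    push_cast at this
    linarith
  have hsm0 : (0 : ℤ) ≤ (s : ℤ) ^ 2 * m := by positivity
  obtain ⟨A, hA⟩ : ∃ A : ℤ, A = (1 + (s : ℤ) ^ 2 * y) ^ 2 - (s : ℤ) ^ 2 * m := ⟨_, rfl⟩
  obtain ⟨B, hB⟩ : ∃ B : ℤ, B = (1 + (s : ℤ) ^ 2 * y) ^ 2 - (-((s : ℤ) ^ 2 * m)) := ⟨_, rfl⟩
  have hfac : ((val m s y : ℕ) : ℤ) = m * (A * B) := by
    rw [val_factor hmle hy, hA, hB]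
    ring
  rw [hfac] at hpv'
  have hcm : IsCoprime (((p ^ 2 : ℕ) : ℤ)) (m : ℤ) := by
    push_cast
    exact ((Prime.coprime_iff_not_dvd P).2 hpm).pow_left
  have hAB := hcm.dvd_of_dvd_mul_left hpv'
  have hor : ((p ^ 2 : ℕ) : ℤ) ∣ A ∨ ((p ^ 2 : ℕ) : ℤ) ∣ B := by
    by_cases h4 : (p : ℤ) ∣ A
    · left
      have h5 : ¬ (p : ℤ) ∣ B := by
        intro h6
        have h7 := dvd_sub h6 h4
        have e1 : B - A = 2 * ((s : ℤ) ^ 2 * m) := by rw [hA, hB]; ring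
        rw [e1] at h7
        rcases P.dvd_or_dvd h7 with h8 | h8
        · exact hp2 h8
        · rcases P.dvd_or_dvd h8 with h9 | h9
          · exact hps' (P.dvd_of_dvd_pow h9)
          · exact hpm h9
      have hc : IsCoprime (((p ^ 2 : ℕ) : ℤ)) B := by
        push_cast
        exact ((Prime.coprime_iff_not_dvd P).2 h5).pow_left
      exact hc.dvd_of_dvd_mul_right hAB
    · right
      have hc : IsCoprime (((p ^ 2 : ℕ) : ℤ)) A := by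
        push_cast
        exact ((Prime.coprime_iff_not_dvd P).2 h4).pow_left
      exact hc.dvd_of_dvd_mul_left hAB
  refine ⟨p, hp, ?_, ?_, hps, ?_⟩
  · by_contra hcon
    exact hps (hz p hp (by omega))
  · have hBle : B ≤ ((3 * s ^ 2 * Y : ℕ) : ℤ) ^ 2 := by
      have hs1 : (1 : ℤ) ≤ s := by exact_mod_cast hs
      have hy1 : (1 : ℤ) ≤ y := by exact_mod_cast hy
      have hyY' : (y : ℤ) ≤ Y := by exact_mod_cast hyY
      have hms' : (m : ℤ) ≤ s := by exact_mod_cast hmle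
      have hm0 : (0 : ℤ) ≤ m := by positivity
      obtain ⟨u, hu⟩ : ∃ u : ℤ, u = (s : ℤ) ^ 2 * Y := ⟨_, rfl⟩
      have hs2 : (1 : ℤ) ≤ (s : ℤ) ^ 2 := by nlinarith
      have hu1 : (s : ℤ) ^ 2 ≤ u := by rw [hu]; nlinarith
      have huy : (s : ℤ) ^ 2 * y ≤ u := by rw [hu]; nlinarith
      have huy0 : (0 : ℤ) ≤ (s : ℤ) ^ 2 * y := by positivity
      have hm2 : (m : ℤ) ≤ (s : ℤ) ^ 2 := by nlinarith
      have e1 : ((3 * s ^ 2 * Y : ℕ) : ℤ) = 3 * u := by push_cast; rw [hu]; ring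
      rw [e1, hB]
      have h10 : (s : ℤ) ^ 2 * m ≤ u * u := by nlinarith
      have h11 : (1 + (s : ℤ) ^ 2 * y) ^ 2 ≤ (u + u) ^ 2 := by
        apply pow_le_pow_left₀ (by linarith)
        linarith
      nlinarith
    have hAB' : A ≤ B := by rw [hA, hB]; linarith
    have hA1 : 0 < A := by rw [hA]; exact hA0
    have hple : ((p ^ 2 : ℕ) : ℤ) ≤ B := by
      rcases hor with h12 | h12
      · exact (Int.le_of_dvd hA1 h12).trans hAB'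
      · exact Int.le_of_dvd (by linarith) h12
    have h13 : p ^ 2 ≤ (3 * s ^ 2 * Y) ^ 2 := by
      have := hple.trans hBle
      exact_mod_cast this
    exact (Nat.pow_le_pow_iff_left two_ne_zero).1 h13
  · rw [hA, hB] at hor
    exact hor

/-- the sieve -/
theorem sieve {m s z Y : ℕ} (hm : Squarefree m) (hs : 0 < s) (h2s : 2 ∣ s) (hms : m ∣ s) (hz1 : 1 ≤ z)
    (hz : ∀ p : ℕ, p.Prime → p ≤ z → p ∣ s) (T : Finset ℕ)
    (hT : ∀ y ∈ T, 1 ≤ y ∧ y ≤ Y ∧ ¬ Squarefree (val m s y)) :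
    (T.card : ℝ) ≤ 4 * Y / z + 4 * (Nat.primeCounting (3 * s ^ 2 * Y) : ℝ) := by
  classical
  obtain ⟨L, hL⟩ : ∃ L : ℕ, L = 3 * s ^ 2 * Y := ⟨_, rfl⟩
  obtain ⟨Pr, hPr⟩ : ∃ Pr : Finset ℕ, Pr = (Ioc z L).filter (fun p => p.Prime ∧ ¬ p ∣ s) := ⟨_, rfl⟩
  obtain ⟨S, hS⟩ : ∃ S : ℕ × ℤ → Finset ℕ, S = fun q => (Icc 1 Y).filter (fun y : ℕ =>
    ((q.1 ^ 2 : ℕ) : ℤ) ∣ (1 + (s : ℤ) ^ 2 * y) ^ 2 - q.2) := ⟨_, rfl⟩
  have hmpos : m ≠ 0 := by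
    rintro rfl
    exact not_squarefree_zero hm
  have hsub : T ⊆ Pr.biUnion fun p => S (p, (s : ℤ) ^ 2 * m) ∪ S (p, -((s : ℤ) ^ 2 * m)) := by
    intro y hy
    obtain ⟨h1, h2, h3⟩ := hT y hy
    obtain ⟨p, hp, hzp, hpL, hps, hor⟩ := bad_prime hm hs h2s hms hz h1 h2 h3
    rw [mem_biUnion]
    refine ⟨p, ?_, ?_⟩
    · rw [hPr, mem_filter, mem_Ioc, hL]
      exact ⟨⟨hzp, hpL⟩, hp, hps⟩
    · rw [mem_union, hS, mem_filter, mem_filter, mem_Icc]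
      rcases hor with h4 | h4
      · exact Or.inl ⟨⟨h1, h2⟩, h4⟩
      · exact Or.inr ⟨⟨h1, h2⟩, h4⟩
  have hcard : ∀ p ∈ Pr, ((S (p, (s : ℤ) ^ 2 * m) ∪ S (p, -((s : ℤ) ^ 2 * m))).card : ℝ) ≤
      4 * Y * ((p : ℝ) ^ 2)⁻¹ + 4 := by
    intro p hp
    rw [hPr, mem_filter] at hp
    obtain ⟨-, hp, hps⟩ := hp
    have P : Prime (p : ℤ) := Nat.prime_iff_prime_int.1 hp
    have hp2 : ¬ p ∣ 2 := fun h => hps (h.trans h2s)
    have he : ¬ (p : ℤ) ∣ (s : ℤ) ^ 2 * m := by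
      intro h
      rcases P.dvd_or_dvd h with h1 | h1
      · have h2 := P.dvd_of_dvd_pow h1
        exact hps (by exact_mod_cast h2)
      · have h2 : p ∣ m := by exact_mod_cast h1
        exact hps (h2.trans hms)
    have he' : ¬ (p : ℤ) ∣ -((s : ℤ) ^ 2 * m) := by
      rw [dvd_neg]
      exact he
    have h1 := card_roots hp hp2 hps he Y (S (p, (s : ℤ) ^ 2 * m)) (fun y hy => by
      rw [hS, mem_filter, mem_Icc] at hy
      exact ⟨hy.1.2, hy.2⟩)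
    have h2 := card_roots hp hp2 hps he' Y (S (p, -((s : ℤ) ^ 2 * m))) (fun y hy => by
      rw [hS, mem_filter, mem_Icc] at hy
      exact ⟨hy.1.2, hy.2⟩)
    have h3 := card_union_le (S (p, (s : ℤ) ^ 2 * m)) (S (p, -((s : ℤ) ^ 2 * m)))
    have h4 : (S (p, (s : ℤ) ^ 2 * m) ∪ S (p, -((s : ℤ) ^ 2 * m))).card ≤ 4 * (Y / p ^ 2) + 4 := by omega
    have h5 : ((Y / p ^ 2 : ℕ) : ℝ) ≤ (Y : ℝ) / ((p ^ 2 : ℕ) : ℝ) := Nat.cast_div_le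
    push_cast at h5
    calc ((S (p, (s : ℤ) ^ 2 * m) ∪ S (p, -((s : ℤ) ^ 2 * m))).card : ℝ) ≤ ((4 * (Y / p ^ 2) + 4 : ℕ) : ℝ) := by
          exact_mod_cast h4
      _ = 4 * ((Y / p ^ 2 : ℕ) : ℝ) + 4 := by push_cast; ring
      _ ≤ 4 * ((Y : ℝ) / (p : ℝ) ^ 2) + 4 := by linarith
      _ = _ := by rw [div_eq_mul_inv]; ring
  have h1 : (T.card : ℝ) ≤ ∑ p ∈ Pr, (4 * Y * ((p : ℝ) ^ 2)⁻¹ + 4) := by
    calc (T.card : ℝ) ≤ ((Pr.biUnion fun p => S (p, (s : ℤ) ^ 2 * m) ∪ S (p, -((s : ℤ) ^ 2 * m))).card : ℝ) := by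
          exact_mod_cast card_le_card hsub
      _ ≤ ((∑ p ∈ Pr, (S (p, (s : ℤ) ^ 2 * m) ∪ S (p, -((s : ℤ) ^ 2 * m))).card : ℕ) : ℝ) := by
          exact_mod_cast card_biUnion_le
      _ = ∑ p ∈ Pr, ((S (p, (s : ℤ) ^ 2 * m) ∪ S (p, -((s : ℤ) ^ 2 * m))).card : ℝ) := by push_cast; rfl
      _ ≤ _ := sum_le_sum hcard
  rw [sum_add_distrib, ← mul_sum, sum_const, nsmul_eq_mul] at h1
  have h2 : ∑ p ∈ Pr, ((p : ℝ) ^ 2)⁻¹ ≤ 1 / z := by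
    rcases Nat.lt_or_ge L z with hLz | hLz
    · have : Pr = ∅ := by
        rw [hPr, Ioc_eq_empty (by omega), filter_empty]
      rw [this, sum_empty]
      positivity
    · calc ∑ p ∈ Pr, ((p : ℝ) ^ 2)⁻¹ ≤ ∑ p ∈ Ioc z L, ((p : ℝ) ^ 2)⁻¹ := by
            apply sum_le_sum_of_subset_of_nonneg
            · rw [hPr]
              exact filter_subset _ _
            · intro i _ _
              positivity
        _ ≤ (z : ℝ)⁻¹ - (L : ℝ)⁻¹ := sum_Ioc_inv_sq_le_sub (by omega) hLz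
        _ ≤ 1 / z := by
            rw [one_div]
            have : (0 : ℝ) ≤ (L : ℝ)⁻¹ := by positivity
            linarith
  have h3 : (Pr.card : ℝ) ≤ (Nat.primeCounting L : ℝ) := by
    have h4 : Pr.card ≤ Nat.primeCounting L := by
      rw [← Nat.primesLE_card_eq_primeCounting]
      apply card_le_card
      intro p hp
      rw [hPr, mem_filter, mem_Ioc] at hp
      rw [Nat.mem_primesLE]
      exact ⟨hp.1.2, hp.2.1⟩
    exact_mod_cast h4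
  rw [← hL]
  have hY0 : (0 : ℝ) ≤ 4 * Y := by positivity
  calc (T.card : ℝ) ≤ 4 * Y * ∑ p ∈ Pr, ((p : ℝ) ^ 2)⁻¹ + (Pr.card : ℝ) * 4 := h1
    _ ≤ 4 * Y * (1 / z) + (Nat.primeCounting L : ℝ) * 4 := by
        have := mul_le_mul_of_nonneg_left h2 hY0
        linarith
    _ = _ := by ring

end Pool.Agent.N650.PB
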